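import Pool.Agent.L5helper38.TadMat

/-! # Even and odd cycles -/

set_option autoImplicit false

open Polynomial Finset

namespace Pool.Agent.L5helper38.Tad

theorem even_case {V : Type} [Fintype V] [DecidableEq V] {A : Matrix V V ℝ} {pos : V → ℕ}
    {r : V ≃ V} {n t : ℕ} {α γ ω : ℕ → ℝ} (G : Geo A pos r n t α γ ω) (hn : n ≤ t + 1)
    (H : ℝ[X]) (hγ : ∀ i, 0 < γ i) (hg : γ (n + 1) = γ (n + t + 3))
    (hH : H.natDegree = t + 1 - n)
    (hE : chi α γ 0 n * H = chi α γ (n + 1) (t + 1))
    (hE2 : chi α γ 0 (n + 1) * H = (X - C (α (n + t + 3))) * chi α γ (n + 2) (t + 1))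
    (hpos : ∀ x, pos x ≤ n + t + 3)
    (hmv : ∀ x, n + 1 ≤ pos x → pos x ≤ n + t + 2 → r x ≠ x)
    (htop : ∀ x, pos x = n + t + 3 → r x = x)
    (hadj : ∀ x y, x ≠ y → A x y ≠ 0 → pos x ≠ pos y) (j0 : V) (hj0 : pos j0 = n + 1) :
    ∃ Xm : Matrix V V ℝ, Xm.IsSymm ∧ A * Xm = Xm * A ∧
      (∀ i j, (i = j ∨ A i j ≠ 0) → Xm i j = 0) ∧ Xm ≠ 0 := by
  set g := gv pos ω with hgdef
  set L := n + t + 3 with hL
  set Pr := ∏ i ∈ range (t + 2), γ (n + 1 + 1 + i) with hPr
  have Prpos : 0 < Pr := prod_pos fun i _ => hγ _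
  have bw := chain_bw (L := L) (by omega) G.h1 G.h2 (t + 2) (n + 1) (by omega)
  rw [← hPr, ← hgdef] at bw
  have z1 : (1 / Pr) • ac A (chi α γ 0 (n + 1) * H) (g L) - ac A 1 (g (n + 1)) =
      ac A (C (1 / Pr * γ (n + 1)) * chi α γ (n + 2) t) (g L) + ac A 0 (g n) := by
    have e : chi α γ 0 (n + 1) * H = chi α γ (n + 2) (t + 2) + C (γ L) * chi α γ (n + 2) t := by
      rw [hE2, chi_succ, show n + 2 + t + 1 = L by omega]
      ring
    rw [e, ac_addl, ac_Cmul, ac_Cmul, show n + 2 = n + 1 + 1 by omega, bw, ac_one, ac_zero,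
      add_zero, smul_add, smul_smul, smul_smul, one_div, inv_mul_cancel₀ Prpos.ne', one_smul, hg]
    abel
  obtain ⟨Xm, x1, x2, x3, x4, x5⟩ := core G hn H 1 0 (1 / Pr) hH hE natDegree_zero (by
    rw [rec3_succ, rec3_zero, rec3_one]
    have : (X - C (α (n + 0 + 1))) * 0 - C (γ (n + 0 + 1)) * (-1 : ℝ[X]) = C (γ (n + 0 + 1)) := by
      ring
    rw [this, natDegree_C]) z1
  have hprod : 1 / Pr * ∏ i ∈ range (t + 2), γ (n + 1 + i) = 1 := by
    have : ∏ i ∈ range (t + 2), γ (n + 1 + i) = Pr := by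
      have e1 := prod_range_succ' (fun i => γ (n + 1 + i)) (t + 1)
      have e2 := prod_range_succ (fun i => γ (n + 1 + 1 + i)) (t + 1)
      rw [show t + 1 + 1 = t + 2 by omega] at e1 e2
      rw [e1, hPr, e2, show n + 1 + 0 = n + 1 by omega, show n + 1 + 1 + (t + 1) = L by omega, hg]
      congr 1
      refine prod_congr rfl fun i _ => ?_
      congr 1
      omega
    rw [this, one_div, inv_mul_cancel₀ Prpos.ne']
  refine ⟨Xm, x1, x2, ?_, ?_⟩
  · have main : ∀ i j, (i = j ∨ A i j ≠ 0) → pos j ≤ pos i → Xm i j = 0 := by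
      intro i j hij hp
      have hle : pos i ≤ pos j + 1 := by
        rcases hij with h | h
        · rw [h]; omega
        · exact G.hB i j h
      rcases Nat.lt_or_ge n (pos j) with h1 | h1
      · rcases Nat.lt_or_ge (n + t + 2) (pos j) with h2 | h2
        · have h3 := hpos j
          have h4 := hpos i
          have hj : pos j = n + t + 3 := by omega
          have hi : pos i = n + t + 3 := by omega
          have hrj := htop j hj
          have hieq : i = j := by
            rcases G.hP j i (by omega) with h | h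
            · exact h
            · rw [h, hrj]
          rw [x5 i j hj hi, if_pos hrj, hprod, hrj, hieq, map_one, Matrix.one_apply_eq]
          ring
        · rw [x4 i j h1 h2 hp hle, map_one, Matrix.one_apply_ne]
          rintro rfl
          rcases hij with h | h
          · exact hmv j h1 h2 h
          · exact hadj _ _ (hmv j h1 h2) h (G.hpr j)
      · exact x3 i j h1 (by omega)
    intro i j hij
    rcases le_total (pos j) (pos i) with h | h
    · exact main i j hij h
    · rw [← x1.apply]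
      refine main j i ?_ h
      rcases hij with h' | h'
      · exact Or.inl h'.symm
      · right; rw [G.hs.apply]; exact h'
  · intro h0
    have := x4 (r j0) j0 (by omega) (by omega) (by rw [G.hpr]) (by rw [G.hpr]; omega)
    rw [h0, map_one, Matrix.one_apply_eq, Matrix.zero_apply] at this
    exact zero_ne_one this

theorem odd_case {V : Type} [Fintype V] [DecidableEq V] {A : Matrix V V ℝ} {pos : V → ℕ}
    {r : V ≃ V} {n t : ℕ} {α γ ω : ℕ → ℝ} (G : Geo A pos r n t α γ ω) (hn : n ≤ t + 1)
    (H : ℝ[X]) (w : ℝ) (hγ : ∀ i, 0 < γ i)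
    (hH : H.natDegree = t + 1 - n)
    (hE : chi α γ 0 n * H = chi α γ (n + 1) (t + 1))
    (hE2 : C (2 * w * γ (n + t + 3) / γ (n + 1)) * (chi α γ 0 (n + 1) * H) =
      (X - C (α (n + t + 3) - 2 * w)) * chi α γ (n + 2) (t + 2) - chi α γ (n + 1) (t + 3) +
        C (2 * w * γ (n + t + 3)) * chi α γ (n + 2) t)
    (hpos : ∀ x, pos x ≤ n + t + 3)
    (hmv : ∀ x, n + 1 ≤ pos x → r x ≠ x)
    (htop1 : ∀ x, pos x = n + t + 3 → A x (r x) = w)
    (htop2 : ∀ x, pos x = n + t + 3 → A x x = α (n + t + 3) - w)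
    (hmid1 : ∀ x, n + 1 ≤ pos x → pos x ≤ n + t + 2 → A x (r x) = 0)
    (hmid2 : ∀ x y, n + 1 ≤ pos y → pos x = pos y + 1 → A x y ≠ 0 → A x (r y) = 0)
    (j0 i0 : V) (hj0 : pos j0 = n + 1) (hi0 : pos i0 = n + 2) (hij0 : A i0 (r j0) ≠ 0) :
    ∃ Xm : Matrix V V ℝ, Xm.IsSymm ∧ A * Xm = Xm * A ∧
      (∀ i j, (i = j ∨ A i j ≠ 0) → Xm i j = 0) ∧ Xm ≠ 0 := by
  set g := gv pos ω with hgdef
  set L := n + t + 3 with hL
  set Pr := ∏ i ∈ range (t + 2), γ (n + 1 + 1 + i) with hPr
  have Prpos : 0 < Pr := prod_pos fun i _ => hγ _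
  have bw := chain_bw (L := L) (by omega) G.h1 G.h2 (t + 2) (n + 1) (by omega)
  rw [← hPr, ← hgdef] at bw
  have bw0 := chain_bw (L := L) (by omega) G.h1 G.h2 (t + 3) n (by omega)
  have hPr0 : ∏ i ∈ range (t + 3), γ (n + 1 + i) = γ (n + 1) * Pr := by
    rw [prod_range_succ', hPr, mul_comm]
    congr 1
    refine prod_congr rfl fun i _ => ?_
    congr 1
    omega
  rw [hPr0, ← hgdef] at bw0
  set a := 2 * w * γ L / γ (n + 1) with ha
  have hac : a * γ (n + 1) = 2 * w * γ L := by rw [ha]; exact div_mul_cancel₀ _ (hγ _).ne'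
  set σ := α L - 2 * w with hσ
  clear_value σ
  have z1 : (a / Pr) • ac A (chi α γ 0 (n + 1) * H) (g L) - ac A (X - C σ) (g (n + 1)) =
      ac A (C (a / Pr * γ (n + 1)) * chi α γ (n + 2) t) (g L) + ac A (-C (γ (n + 1))) (g n) := by
    have e := congrArg (fun p => ac A p (g L)) hE2
    beta_reduce at e
    rw [ac_Cmul, ac_addl, ac_subl, ac_Cmul A (2 * w * γ L), show n + 2 = n + 1 + 1 by omega,
      ac_mul A (X - C σ), bw, bw0, ac_smul] at e
    have e2 : (a / Pr) • ac A (chi α γ 0 (n + 1) * H) (g L) =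
        (1 / Pr) • (a • ac A (chi α γ 0 (n + 1) * H) (g L)) := by
      rw [smul_smul]; congr 1; ring
    rw [e2, e, ac_Cmul, ac_negl, ac_C, show a / Pr * γ (n + 1) = 1 / Pr * (2 * w * γ L) by
      rw [← hac]; ring]
    have e3 : (1 / Pr) * Pr = 1 := by rw [one_div, inv_mul_cancel₀ Prpos.ne']
    have e4 : (1 / Pr) * (γ (n + 1) * Pr) = γ (n + 1) := by
      rw [mul_comm (γ (n + 1)), ← mul_assoc, e3, one_mul]
    rw [smul_add, smul_sub, smul_smul, smul_smul, smul_smul, e3, e4, one_smul]
    abel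
  obtain ⟨Xm, x1, x2, x3, x4, x5⟩ := core G hn H (X - C σ) (-C (γ (n + 1))) (a / Pr) hH hE
    (by rw [natDegree_neg, natDegree_C]) (by
    rw [rec3_succ, rec3_zero, rec3_one]
    have : (X - C (α (n + 0 + 1))) * -C (γ (n + 1)) - C (γ (n + 0 + 1)) * -(X - C σ) =
        C (γ (n + 1) * (α (n + 1) - σ)) := by
      rw [add_zero, map_mul, map_sub]
      ring
    rw [this, natDegree_C]) z1
  have hprod : a / Pr * ∏ i ∈ range (t + 2), γ (n + 1 + i) = 2 * w := by
    have h1 : (∏ i ∈ range (t + 2), γ (n + 1 + i)) * γ L = γ (n + 1) * Pr := by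
      rw [← hPr0, prod_range_succ (fun i => γ (n + 1 + i)) (t + 2)]
      congr 2
      omega
    have h2 := (hγ L).ne'
    have h3 : a * (∏ i ∈ range (t + 2), γ (n + 1 + i)) = 2 * w * Pr := by
      refine mul_right_cancel₀ h2 ?_
      calc a * (∏ i ∈ range (t + 2), γ (n + 1 + i)) * γ L
          = a * ((∏ i ∈ range (t + 2), γ (n + 1 + i)) * γ L) := by ring
        _ = a * γ (n + 1) * Pr := by rw [h1]; ring
        _ = 2 * w * Pr * γ L := by rw [hac]; ring
    rw [div_mul_eq_mul_div, h3, mul_div_assoc, div_self Prpos.ne', mul_one]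
  have tap : ∀ i j, (aeval A (X - C σ)) i j = A i j - σ * (if i = j then 1 else 0) := by
    intro i j
    rw [map_sub, aeval_X, aeval_C, Algebra.algebraMap_eq_smul_one, Matrix.sub_apply,
      Matrix.smul_apply, Matrix.one_apply, smul_eq_mul]
  refine ⟨Xm, x1, x2, ?_, ?_⟩
  · have main : ∀ i j, (i = j ∨ A i j ≠ 0) → pos j ≤ pos i → Xm i j = 0 := by
      intro i j hij hp
      have hle : pos i ≤ pos j + 1 := by
        rcases hij with h | h
        · rw [h]; omega
        · exact G.hB i j h
      rcases Nat.lt_or_ge n (pos j) with h1 | h1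
      · rcases Nat.lt_or_ge (n + t + 2) (pos j) with h2 | h2
        · have h3 := hpos j
          have h4 := hpos i
          have hj : pos j = n + t + 3 := by omega
          have hi : pos i = n + t + 3 := by omega
          have hrj := hmv j h1
          rw [x5 i j hj hi, if_neg hrj, hprod, tap]
          rcases G.hP j i (by omega) with h | h
          · rw [h, if_neg (Ne.symm hrj), htop1 j hj]; ring
          · rw [h, if_pos rfl, G.hAr, htop2 j hj, hσ]; ring
        · rw [x4 i j h1 h2 hp hle, tap]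
          rcases hij with h | h
          · rw [h, if_neg (Ne.symm (hmv j h1)), hmid1 j h1 h2]; ring
          · rcases Nat.lt_or_ge (pos j) (pos i) with h5 | h5
            · rw [hmid2 i j h1 (by omega) h, if_neg (by
                rintro rfl
                rw [G.hpr] at h5
                omega)]
              ring
            · have h6 : pos i = pos j := by omega
              rcases G.hP j i h6 with h7 | h7
              · rw [h7, if_neg (Ne.symm (hmv j h1)), hmid1 j h1 h2]; ring
              · exfalso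
                rw [h7] at h
                apply h
                rw [G.hs.apply]
                exact hmid1 j h1 h2
      · exact x3 i j h1 (by omega)
    intro i j hij
    rcases le_total (pos j) (pos i) with h | h
    · exact main i j hij h
    · rw [← x1.apply]
      refine main j i ?_ h
      rcases hij with h' | h'
      · exact Or.inl h'.symm
      · right; rw [G.hs.apply]; exact h'
  · intro h0
    have := x4 i0 j0 (by omega) (by omega) (by omega) (by omega)
    rw [h0, tap, if_neg (by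
      rintro rfl
      rw [G.hpr] at hi0
      omega), Matrix.zero_apply] at this
    apply hij0
    linarith

end Pool.Agent.L5helper38.Tad
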