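import Pool.Agent.L5helper38.TadPoly

/-! # The commuting matrix -/

set_option autoImplicit false

open Polynomial Finset

namespace Pool.Agent.L5helper38.Tad

section ac

variable {V : Type} [Fintype V] [DecidableEq V] (A : Matrix V V ℝ)

/-- the action of polynomials on vectors -/
noncomputable def ac (p : ℝ[X]) (v : V → ℝ) : V → ℝ := (aeval A p).mulVec v

theorem ac_mul (p q : ℝ[X]) (v : V → ℝ) : ac A (p * q) v = ac A p (ac A q v) := by
  unfold ac; rw [map_mul, Matrix.mulVec_mulVec]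

theorem ac_comm (p q : ℝ[X]) (v : V → ℝ) : ac A p (ac A q v) = ac A q (ac A p v) := by
  rw [← ac_mul, ← ac_mul, mul_comm]

theorem ac_addl (p q : ℝ[X]) (v : V → ℝ) : ac A (p + q) v = ac A p v + ac A q v := by
  unfold ac; rw [map_add, Matrix.add_mulVec]

theorem ac_subl (p q : ℝ[X]) (v : V → ℝ) : ac A (p - q) v = ac A p v - ac A q v := by
  unfold ac; rw [map_sub, Matrix.sub_mulVec]

theorem ac_negl (p : ℝ[X]) (v : V → ℝ) : ac A (-p) v = -ac A p v := by
  unfold ac; rw [map_neg, Matrix.neg_mulVec]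

theorem ac_C (c : ℝ) (v : V → ℝ) : ac A (C c) v = c • v := by
  unfold ac
  rw [aeval_C, Algebra.algebraMap_eq_smul_one, Matrix.smul_mulVec, Matrix.one_mulVec]

theorem ac_one (v : V → ℝ) : ac A 1 v = v := by
  unfold ac; rw [map_one, Matrix.one_mulVec]

theorem ac_zero (v : V → ℝ) : ac A 0 v = 0 := by
  unfold ac; rw [map_zero, Matrix.zero_mulVec]

theorem ac_X (v : V → ℝ) : ac A X v = A.mulVec v := by
  unfold ac; rw [aeval_X]

theorem ac_Cmul (c : ℝ) (p : ℝ[X]) (v : V → ℝ) : ac A (C c * p) v = c • ac A p v := by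
  rw [ac_mul, ac_C]

theorem ac_smul (p : ℝ[X]) (c : ℝ) (v : V → ℝ) : ac A p (c • v) = c • ac A p v := by
  unfold ac; rw [Matrix.mulVec_smul]

theorem ac_addr (p : ℝ[X]) (u v : V → ℝ) : ac A p (u + v) = ac A p u + ac A p v := by
  unfold ac; rw [Matrix.mulVec_add]

theorem ac_subr (p : ℝ[X]) (u v : V → ℝ) : ac A p (u - v) = ac A p u - ac A p v := by
  unfold ac; rw [Matrix.mulVec_sub]

theorem ac_sum (p : ℝ[X]) (v : V → ℝ) :
    ac A p v = ∑ i ∈ range (p.natDegree + 1), p.coeff i • (A ^ i).mulVec v := by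
  unfold ac
  rw [aeval_eq_sum_range, Matrix.sum_mulVec]
  exact sum_congr rfl fun i _ => Matrix.smul_mulVec _ _ _

variable {A}

/-- vanishing at the low positions -/
theorem lo_pow {pos : V → ℕ} (hB : ∀ x y, A x y ≠ 0 → pos y ≤ pos x + 1) (v : V → ℝ) :
    ∀ d a : ℕ, (∀ x, pos x < a + d → v x = 0) → ∀ x, pos x < a → (A ^ d).mulVec v x = 0 := by
  intro d
  induction d with
  | zero => intro a h x hx; rw [pow_zero, Matrix.one_mulVec]; exact h x (by omega)
  | succ d ih =>
    intro a h x hx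
    rw [pow_succ', ← Matrix.mulVec_mulVec]
    refine sum_eq_zero fun y _ => ?_
    change A x y * _ = 0
    by_cases hxy : A x y = 0
    · rw [hxy, zero_mul]
    · have h1 := hB x y hxy
      rw [ih (a + 1) (fun z hz => h z (by omega)) y (by omega), mul_zero]

theorem up_pow {pos : V → ℕ} (hB : ∀ x y, A x y ≠ 0 → pos x ≤ pos y + 1) (v : V → ℝ) (b : ℕ)
    (h : ∀ x, b < pos x → v x = 0) :
    ∀ d : ℕ, ∀ x, b + d < pos x → (A ^ d).mulVec v x = 0 := by
  intro d
  induction d with
  | zero => intro x hx; rw [pow_zero, Matrix.one_mulVec]; exact h x (by omega)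
  | succ d ih =>
    intro x hx
    rw [pow_succ', ← Matrix.mulVec_mulVec]
    refine sum_eq_zero fun y _ => ?_
    change A x y * _ = 0
    by_cases hxy : A x y = 0
    · rw [hxy, zero_mul]
    · have h1 := hB x y hxy
      rw [ih y (by omega), mul_zero]

theorem lo_ac {pos : V → ℕ} (hB : ∀ x y, A x y ≠ 0 → pos y ≤ pos x + 1) (v : V → ℝ)
    (p : ℝ[X]) (d a : ℕ) (hp : p.natDegree ≤ d) (h : ∀ x, pos x < a + d → v x = 0) :
    ∀ x, pos x < a → ac A p v x = 0 := by
  intro x hx
  rw [ac_sum, Finset.sum_apply]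
  refine sum_eq_zero fun i hi => ?_
  rw [Pi.smul_apply, lo_pow hB v i a (fun z hz => h z (by have := mem_range.1 hi; omega)) x hx,
    smul_zero]

theorem up_ac {pos : V → ℕ} (hB : ∀ x y, A x y ≠ 0 → pos x ≤ pos y + 1) (v : V → ℝ)
    (p : ℝ[X]) (d b : ℕ) (hp : p.natDegree ≤ d) (h : ∀ x, b < pos x → v x = 0) :
    ∀ x, b + d < pos x → ac A p v x = 0 := by
  intro x hx
  rw [ac_sum, Finset.sum_apply]
  refine sum_eq_zero fun i hi => ?_
  rw [Pi.smul_apply, up_pow hB v b h i x (by have := mem_range.1 hi; omega), smul_zero]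

theorem aeval_symm (hs : A.IsSymm) (p : ℝ[X]) : (aeval A p).IsSymm := by
  rw [aeval_eq_sum_range]
  unfold Matrix.IsSymm
  rw [Matrix.transpose_sum]
  refine sum_congr rfl fun i _ => ?_
  rw [Matrix.transpose_smul, Matrix.transpose_pow, hs.eq]

theorem aeval_inv {r : V ≃ V} (hr : ∀ x y, A (r x) (r y) = A x y) (p : ℝ[X]) (x y : V) :
    (aeval A p) (r x) (r y) = (aeval A p) x y := by
  have h0 : A.submatrix r r = A := by ext x y; exact hr x y
  have h1 : ∀ i : ℕ, (A ^ i).submatrix r r = A ^ i := by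
    intro i
    induction i with
    | zero => rw [pow_zero]; exact Matrix.submatrix_one_equiv r
    | succ i ih =>
      rw [pow_succ, ← Matrix.submatrix_mul_equiv (A ^ i) A r r r, ih, h0]
  rw [aeval_eq_sum_range, Matrix.sum_apply, Matrix.sum_apply]
  refine sum_congr rfl fun i _ => ?_
  rw [Matrix.smul_apply, Matrix.smul_apply]
  have := congrFun (congrFun (h1 i) x) y
  rw [Matrix.submatrix_apply] at this
  rw [this]

end ac

/-- three term recurrences -/
noncomputable def rec3 (α γ : ℕ → ℝ) (n : ℕ) (P Q : ℝ[X]) : ℕ → ℝ[X]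
  | 0 => P
  | 1 => Q
  | (j + 2) => (X - C (α (n + j + 1))) * rec3 α γ n P Q (j + 1) -
      C (γ (n + j + 1)) * rec3 α γ n P Q j

theorem rec3_zero (α γ : ℕ → ℝ) (n : ℕ) (P Q : ℝ[X]) : rec3 α γ n P Q 0 = P := by rw [rec3]
theorem rec3_one (α γ : ℕ → ℝ) (n : ℕ) (P Q : ℝ[X]) : rec3 α γ n P Q 1 = Q := by rw [rec3]
theorem rec3_succ (α γ : ℕ → ℝ) (n : ℕ) (P Q : ℝ[X]) (j : ℕ) : rec3 α γ n P Q (j + 2) =
    (X - C (α (n + j + 1))) * rec3 α γ n P Q (j + 1) - C (γ (n + j + 1)) * rec3 α γ n P Q j := by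
  rw [rec3]

theorem rec3_V (α γ : ℕ → ℝ) (n t : ℕ) (κ : ℝ) : ∀ j s : ℕ, j + s = t + 1 →
    rec3 α γ n (C κ * chi α γ (n + 1) (t + 1)) (C (κ * γ (n + 1)) * chi α γ (n + 2) t) j =
      C (κ * ∏ i ∈ range j, γ (n + 1 + i)) * chi α γ (n + j + 1) s := by
  intro j
  induction j using Nat.strong_induction_on with
  | _ j ih =>
    intro s hs
    match j with
    | 0 =>
      have : s = t + 1 := by omega
      rw [rec3_zero, this]; simp
    | 1 =>
      have : s = t := by omega
      rw [rec3_one, this]; simp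
    | (j + 2) =>
      have h1 := ih (j + 1) (by omega) (s + 1) (by omega)
      have h2 := ih j (by omega) (s + 2) (by omega)
      rw [rec3_succ, h1, h2, prod_range_succ _ (j + 1), prod_range_succ _ j,
        chi_back α γ (n + j + 1) s]
      rw [show n + (j + 1) + 1 = n + j + 2 by omega, show n + (j + 2) + 1 = n + j + 3 by omega,
        show n + 1 + (j + 1) = n + j + 2 by omega, show n + 1 + j = n + j + 1 by omega,
        show n + j + 1 + 1 = n + j + 2 by omega, show n + j + 1 + 2 = n + j + 3 by omega]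
      simp only [map_mul]
      ring

theorem rec3_V2 (α γ : ℕ → ℝ) (n t : ℕ) (κ : ℝ) :
    rec3 α γ n (C κ * chi α γ (n + 1) (t + 1)) (C (κ * γ (n + 1)) * chi α γ (n + 2) t) (t + 2) =
      0 := by
  rw [rec3_succ, rec3_V α γ n t κ (t + 1) 0 (by omega), rec3_V α γ n t κ t 1 (by omega),
    prod_range_succ, chi_zero, chi_one, show n + 1 + t = n + t + 1 by omega]
  simp only [map_mul]
  ring

theorem rec3_V3 (α γ : ℕ → ℝ) (n t : ℕ) (κ : ℝ) :
    rec3 α γ n (C κ * chi α γ (n + 1) (t + 1)) (C (κ * γ (n + 1)) * chi α γ (n + 2) t) (t + 3) =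
      - C (κ * ∏ i ∈ range (t + 2), γ (n + 1 + i)) := by
  rw [show t + 3 = (t + 1) + 2 by omega, rec3_succ, show t + 1 + 1 = t + 2 by omega, rec3_V2,
    rec3_V α γ n t κ (t + 1) 0 (by omega), prod_range_succ (n := t + 1), chi_zero,
    show n + 1 + (t + 1) = n + (t + 1) + 1 by omega]
  simp only [map_mul]
  ring

theorem rec3_W (α γ : ℕ → ℝ) (n : ℕ) (P Q : ℝ[X]) (h1 : Q.natDegree = 0)
    (h2 : (rec3 α γ n P Q 2).natDegree = 0) : ∀ j : ℕ, (rec3 α γ n P Q (j + 2)).natDegree ≤ j := by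
  intro j
  induction j using Nat.strong_induction_on with
  | _ j ih =>
    match j with
    | 0 => rw [zero_add]; exact h2.le
    | (j + 1) =>
      have e1 := ih j (by omega)
      have e2 : (rec3 α γ n P Q (j + 1)).natDegree ≤ j := by
        rcases Nat.eq_zero_or_pos j with h | h
        · rw [h, zero_add, rec3_one]; exact h1.le
        · have e3 := ih (j - 1) (by omega)
          rw [show j - 1 + 2 = j + 1 by omega] at e3
          omega
      have e4 := rec3_succ α γ n P Q (j + 1)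
      rw [e4]
      refine (natDegree_sub_le _ _).trans (max_le ?_ ?_)
      · refine natDegree_mul_le.trans ?_
        rw [natDegree_X_sub_C, show j + 1 + 1 = j + 2 by omega]
        omega
      · exact (natDegree_C_mul_le _ _).trans (by omega)

section chain

variable {V : Type} [Fintype V] [DecidableEq V] {A : Matrix V V ℝ} {α γ : ℕ → ℝ}
  {g : ℕ → V → ℝ} {L : ℕ}

theorem chain_fw (h0 : g 1 = ac A (X - C (α 0)) (g 0))
    (h1 : ∀ q, q + 2 ≤ L → g (q + 2) = ac A (X - C (α (q + 1))) (g (q + 1)) - γ (q + 1) • g q) :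
    ∀ q, q ≤ L → ac A (chi α γ 0 q) (g 0) = g q := by
  intro q
  induction q using Nat.strong_induction_on with
  | _ q ih =>
    intro hq
    match q with
    | 0 => rw [chi_zero, ac_one]
    | 1 => rw [chi_one, h0]
    | (q + 2) =>
      rw [chi_succ, ac_subl, ac_mul, ih (q + 1) (by omega) (by omega), ac_Cmul,
        ih q (by omega) (by omega), h1 q hq, zero_add]

theorem chain_bw (hL : 1 ≤ L)
    (h1 : ∀ q, q + 2 ≤ L → g (q + 2) = ac A (X - C (α (q + 1))) (g (q + 1)) - γ (q + 1) • g q)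
    (h2 : ac A (X - C (α L)) (g L) = γ L • g (L - 1)) :
    ∀ t q, q + t = L → ac A (chi α γ (q + 1) t) (g L) = (∏ i ∈ range t, γ (q + 1 + i)) • g q := by
  intro t
  induction t using Nat.strong_induction_on with
  | _ t ih =>
    intro q hq
    match t with
    | 0 =>
      have : q = L := by omega
      rw [chi_zero, ac_one, this]; simp
    | 1 =>
      subst hq
      rw [chi_one, h2]
      simp
    | (t + 2) =>
      have e1 := ih (t + 1) (by omega) (q + 1) (by omega)
      have e2 := ih t (by omega) (q + 2) (by omega)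
      rw [chi_back, ac_subl, ac_mul, ac_Cmul, e1, e2]
      have e3 := h1 q (by omega)
      rw [ac_smul, show ac A (X - C (α (q + 1))) (g (q + 1)) = g (q + 2) + γ (q + 1) • g q by
        rw [e3]; abel]
      rw [prod_range_succ' (fun i => γ (q + 1 + i)) (t + 1),
        prod_range_succ' (fun i => γ (q + 1 + 1 + i)) t]
      have c1 : ∏ k ∈ range (t + 1), γ (q + 1 + (k + 1)) =
          (∏ k ∈ range t, γ (q + 1 + 1 + (k + 1))) * γ (q + 1 + 1) := by
        rw [prod_range_succ' (fun k => γ (q + 1 + (k + 1))) t]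
        congr 1
        refine prod_congr rfl fun k _ => ?_
        congr 1
        omega
      rw [c1]
      have c2 : ∏ k ∈ range t, γ (q + 2 + 1 + k) = ∏ k ∈ range t, γ (q + 1 + 1 + (k + 1)) := by
        refine prod_congr rfl fun k _ => ?_
        congr 1
        omega
      rw [c2, show q + 1 + 1 + 0 = q + 1 + 1 by omega, show q + 1 + 0 = q + 1 by omega]
      module

theorem chain_Z {y θ : ℝ[X]} {n : ℕ} {P0 P1 Q0 Q1 : ℝ[X]}
    (h1 : ∀ q, q + 2 ≤ L → g (q + 2) = ac A (X - C (α (q + 1))) (g (q + 1)) - γ (q + 1) • g q)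
    (z0 : ac A (y - θ) (g n) = ac A P0 (g L) + ac A Q0 (g n))
    (z1 : ac A (y - θ) (g (n + 1)) = ac A P1 (g L) + ac A Q1 (g n)) :
    ∀ j, n + j ≤ L → ac A (y - θ) (g (n + j)) =
      ac A (rec3 α γ n P0 P1 j) (g L) + ac A (rec3 α γ n Q0 Q1 j) (g n) := by
  intro j
  induction j using Nat.strong_induction_on with
  | _ j ih =>
    intro hj
    match j with
    | 0 => rw [rec3_zero, rec3_zero]; exact z0
    | 1 => rw [rec3_one, rec3_one]; exact z1
    | (j + 2) =>
      have e1 := ih (j + 1) (by omega) (by omega)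
      have e2 := ih j (by omega) (by omega)
      rw [show n + (j + 2) = n + j + 2 by omega, h1 (n + j) (by omega), ac_subr, ac_smul,
        ac_comm, show n + j + 1 = n + (j + 1) by omega, e1, e2, rec3_succ, rec3_succ]
      simp only [ac_subl, ac_mul, ac_addr, ac_C, smul_add, show n + (j + 1) = n + j + 1 by omega]
      abel

end chain

end Pool.Agent.L5helper38.Tad
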