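import Pool.Agent.L5helper38.TadPoly

/-! # The Jacobi data for the tadpoles -/

set_option autoImplicit false

open Polynomial Finset

namespace Pool.Agent.L5helper38.Tad

/-- the points `4 i + 1` -/
def bq (i : ℕ) : ℝ := 4 * (i : ℝ) + 1

/-- the points `4 i` -/
def vq (i : ℕ) : ℝ := 4 * (i : ℝ)

/-- `4 i` below `n`, then `4 i + 1` -/
noncomputable def eq' (n i : ℕ) : ℝ := if i < n then vq i else bq i

theorem bq_mono (i j : ℕ) (h : i < j) : bq i < bq j := by
  unfold bq
  have : (i : ℝ) < j := by exact_mod_cast h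
  linarith

/-- the common factor -/
noncomputable def hp (n N : ℕ) : ℝ[X] := ∏ i ∈ Ico n N, (X - C (bq i))

theorem hp_monic (n N : ℕ) : (hp n N).Monic := monic_prod_of_monic _ _ fun _ _ => monic_X_sub_C _

theorem hp_deg (n N : ℕ) : (hp n N).natDegree = N - n := by
  unfold hp
  rw [natDegree_prod_of_monic _ _ fun i _ => monic_X_sub_C _]
  simp

theorem hp_b {n N : ℕ} (h : n ≤ N) : rp bq n * hp n N = rp bq N := by
  unfold rp hp
  rw [prod_range_mul_prod_Ico _ h]

theorem hp_e {n N : ℕ} (h : n ≤ N) : rp vq n * hp n N = rp (eq' n) N := by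
  unfold rp hp
  rw [← prod_range_mul_prod_Ico (fun i => X - C (eq' n i)) h]
  congr 1
  · refine prod_congr rfl fun i hi => ?_
    rw [eq', if_pos (mem_range.1 hi)]
  · refine prod_congr rfl fun i hi => ?_
    rw [eq', if_neg (by have := (mem_Ico.1 hi).1; omega)]

theorem pair_ge (n j i : ℕ) : 1 ≤ ((4 * (i : ℝ) + 2) - eq' n j) * ((4 * (i : ℝ) + 2) - bq j) := by
  unfold eq' vq bq
  rcases Nat.lt_or_ge i j with h | h
  · have : (i : ℝ) + 1 ≤ j := by exact_mod_cast h
    split_ifs <;> nlinarith
  · have : (j : ℝ) ≤ i := by exact_mod_cast h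
    split_ifs <;> nlinarith

theorem pair_ge' (n j : ℕ) : 1 ≤ ((-1 : ℝ) - eq' n j) * ((-1 : ℝ) - bq j) := by
  unfold eq' vq bq
  have : (0 : ℝ) ≤ j := Nat.cast_nonneg j
  split_ifs <;> nlinarith

theorem prod_ge {n N : ℕ} {s : ℝ} (h : ∀ j, 1 ≤ (s - eq' n j) * (s - bq j)) :
    1 ≤ (rp (eq' n) N).eval s * (rp bq N).eval s := by
  rw [rp_eval, rp_eval, ← prod_mul_distrib]
  calc (1 : ℝ) = ∏ _j ∈ range N, (1 : ℝ) := by simp
    _ ≤ _ := prod_le_prod (fun _ _ => zero_le_one) fun j _ => h j

/-- the tail continuants: `rp bq n` and any monic `f` with the right signs -/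
theorem tail_real (n : ℕ) (f : ℝ[X]) (hf : f.Monic) (hd : f.natDegree = n + 1)
    (hs : ∀ j, j < n → 0 < (-1) ^ (n - j) * f.eval (bq j)) :
    ∃ α γ : ℕ → ℝ, (∀ i, 0 < γ i) ∧ chi α γ 0 (n + 1) = f ∧ chi α γ 0 n = rp bq n :=
  realize n f bq hf hd (fun i j h _ => bq_mono i j h) hs

/-- joining the tail, the middle block and the last vertex -/
noncomputable def join (n K : ℕ) (α a : ℕ → ℝ) (d : ℝ) (q : ℕ) : ℝ :=
  if q ≤ n then α q else if q ≤ n + K then a (q - (n + 1)) else d

/-- joining the couplings -/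
noncomputable def joinc (n K : ℕ) (γ β : ℕ → ℝ) (c d : ℝ) (q : ℕ) : ℝ :=
  if q ≤ n then γ q else if q = n + 1 then c else if q ≤ n + K then β (q - (n + 1)) else d

theorem chi_join_tail (n K : ℕ) (α a γ β : ℕ → ℝ) (d c e : ℝ) (t : ℕ) (ht : t ≤ n + 1) :
    chi (join n K α a d) (joinc n K γ β c e) 0 t = chi α γ 0 t := by
  refine chi_congr 0 t (fun j _ h => ?_) (fun j _ h => ?_)
  · rw [join, if_pos (by omega)]
  · rw [joinc, if_pos (by omega)]

theorem chi_join_mid (n K : ℕ) (α a γ β : ℕ → ℝ) (d c e : ℝ) (i t : ℕ) (ht : i + t ≤ K) :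
    chi (join n K α a d) (joinc n K γ β c e) (i + (n + 1)) t = chi a β i t := by
  rw [← chi_shift]
  refine chi_congr i t (fun j h1 h => ?_) (fun j h1 h => ?_)
  · rw [join, if_neg (by omega), if_pos (by omega)]
    congr 1
    omega
  · rw [joinc, if_neg (by omega), if_neg (by omega), if_pos (by omega)]
    congr 1
    omega

/-- the signs of a product of linear factors between consecutive `bq` -/
theorem x_signs {N : ℕ} {x : ℕ → ℝ} (h0 : x 0 < 0)
    (h1 : ∀ i, i < N → bq i < x (i + 1) ∧ x (i + 1) < bq i + 1) :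
    (∀ i j, i < j → j < N + 1 → x i < x j) ∧
    (∀ j, j < N → 0 < (-1) ^ (N - j) * (rp x (N + 1)).eval (bq j)) := by
  have up : ∀ i, i < N + 1 → x i < 4 * (i : ℝ) - 1 + 1 := by
    intro i hi
    rcases Nat.eq_zero_or_pos i with h | h
    · subst h; simpa using h0
    · obtain ⟨i', rfl⟩ : ∃ i', i = i' + 1 := ⟨i - 1, by omega⟩
      have := (h1 i' (by omega)).2
      unfold bq at this
      push_cast
      linarith
  refine ⟨fun i j hij hj => ?_, fun j hj => ?_⟩
  · obtain ⟨j', rfl⟩ : ∃ j', j = j' + 1 := ⟨j - 1, by omega⟩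
    have h2 := (h1 j' (by omega)).1
    have h3 := up i (by omega)
    have h4 : (i : ℝ) ≤ j' := by exact_mod_cast (by omega : i ≤ j')
    unfold bq at h2
    linarith
  · rw [rp_eval]
    have := sign_prod x (bq j) (N + 1) (j + 1) (by omega) (fun i hi => by
        have h3 := up i (by omega)
        have h4 : (i : ℝ) ≤ j := by exact_mod_cast (by omega : i ≤ j)
        unfold bq
        linarith) (fun i h2 h3 => by
        obtain ⟨i', rfl⟩ : ∃ i', i = i' + 1 := ⟨i - 1, by omega⟩
        have h4 := (h1 i' (by omega)).1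
        have h5 : (j : ℝ) ≤ i' := by exact_mod_cast (by omega : j ≤ i')
        unfold bq at h4 ⊢
        linarith)
    rw [show N + 1 - (j + 1) = N - j by omega] at this
    exact this

/-- **Even data.** -/
theorem even_data (n t : ℕ) (hn1 : 1 ≤ n) (hn : n ≤ t + 1) :
    ∃ (α γ : ℕ → ℝ) (H : ℝ[X]), (∀ i, 0 < γ i) ∧
    γ (n + 1) = 2 ∧ γ (n + t + 3) = 2 ∧ H.natDegree = t + 1 - n ∧
    chi α γ 0 n * H = chi α γ (n + 1) (t + 1) ∧
    chi α γ 0 (n + 1) * H = (X - C (α (n + t + 3))) * chi α γ (n + 2) (t + 1) := by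
  set N := t + 1 with hN
  set FF : ℝ[X] := rp (eq' n) N * rp bq N - C (1 / 2) with hFF
  have ev : ∀ s, FF.eval s = (rp (eq' n) N).eval s * (rp bq N).eval s - 1 / 2 := by
    intro s; rw [hFF, eval_sub, eval_mul, eval_C]
  have r0 : ∃ z, (-1 : ℝ) < z ∧ z < 0 ∧ FF.eval z = 0 := by
    refine ivt_poly FF (by norm_num) ?_
    have h1 := prod_ge (n := n) (N := N) (s := -1) fun j => pair_ge' n j
    have h2 : (rp (eq' n) N).eval 0 = 0 := by
      have := rp_root (eq' n) N 0 (by omega)
      rw [eq', if_pos (by omega), vq] at this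
      simpa using this
    rw [ev, ev, h2]
    nlinarith
  have r1 : ∀ i, i < N → ∃ z, bq i < z ∧ z < bq i + 1 ∧ FF.eval z = 0 := by
    intro i hi
    refine ivt_poly FF (by linarith) ?_
    have h1 := prod_ge (n := n) (N := N) (s := 4 * (i : ℝ) + 2) fun j => pair_ge n j i
    have e : bq i + 1 = 4 * (i : ℝ) + 2 := by unfold bq; ring
    rw [ev, ev, rp_root bq N i hi, e]
    nlinarith
  obtain ⟨x0, h01, h02, h03⟩ := r0
  choose! x1 h11 h12 h13 using r1
  set x : ℕ → ℝ := fun i => if i = 0 then x0 else x1 (i - 1) with hx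
  have hx0 : x 0 = x0 := by rw [hx]; simp
  have hxs : ∀ i, x (i + 1) = x1 i := by intro i; rw [hx]; simp
  obtain ⟨xm, xs⟩ := x_signs (N := N) (x := x) (by rw [hx0]; exact h02)
    (fun i hi => by rw [hxs]; exact ⟨h11 i hi, h12 i hi⟩)
  have xr : ∀ i, i < N + 1 → (rp (eq' n) N).eval (x i) * (rp bq N).eval (x i) = 1 / 2 := by
    intro i hi
    have : FF.eval (x i) = 0 := by
      rcases Nat.eq_zero_or_pos i with h | h
      · rw [h, hx0]; exact h03
      · obtain ⟨i', rfl⟩ : ∃ i', i = i' + 1 := ⟨i - 1, by omega⟩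
        rw [hxs]; exact h13 i' (by omega)
    rw [ev] at this
    linarith
  obtain ⟨a, β, βpos, c1, c2⟩ := realize N (rp x (N + 1)) bq (rp_monic _ _) (rp_deg _ _)
    (fun i j h _ => bq_mono i j h) xs
  -- the other block polynomial
  set ω := ∏ j ∈ range (t + 1), β (0 + j + 1) with hω
  have hA : chi a β 1 N = rp (eq' n) N := by
    have w := chi_wronskian a β 0 t
    rw [zero_add, ← hω, show t + 2 = N + 1 by omega, ← hN, c1, c2] at w
    have key : C (1 / 2) * chi a β 1 N - C ω * rp (eq' n) N = 0 := by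
      refine eq_zero_of_roots (d := N + 1) (x := x) ?_ xm ?_
      · have h1 : (C (1 / 2) * chi a β 1 N).natDegree ≤ N := by
          refine (natDegree_C_mul_le _ _).trans ?_
          rw [chi_deg]
        have h2 : (C ω * rp (eq' n) N).natDegree ≤ N := by
          refine (natDegree_C_mul_le _ _).trans ?_
          rw [rp_deg]
        have h3 := natDegree_sub_le (C (1 / 2) * chi a β 1 N) (C ω * rp (eq' n) N)
        omega
      · intro i hi
        have w1 := congrArg (eval (x i)) w
        rw [eval_sub, eval_mul, eval_mul, rp_root x _ _ hi, eval_C] at w1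
        have w2 := xr i hi
        have hb : (rp bq N).eval (x i) ≠ 0 := by
          intro h; rw [h] at w2; norm_num at w2
        rw [eval_sub, eval_mul, eval_mul, eval_C, eval_C]
        refine mul_right_cancel₀ hb ?_
        rw [zero_mul] at *
        linear_combination (1 / 2) * w1 - ω * w2
    have lc := congrArg (fun p => coeff p N) key
    simp only [coeff_sub, coeff_C_mul, coeff_zero] at lc
    have l1 := (chi_monic a β 1 N).coeff_natDegree
    have l2 := (rp_monic (eq' n) N).coeff_natDegree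
    rw [chi_deg] at l1
    rw [rp_deg] at l2
    rw [l1, l2] at lc
    have hw : ω = 1 / 2 := by linarith
    rw [hw, ← mul_sub] at key
    have := (mul_eq_zero.1 key).resolve_left (by
      intro h0
      rw [C_eq_zero] at h0
      norm_num at h0)
    exact sub_eq_zero.1 this
  -- the tail
  obtain ⟨α, γ, γpos, d1, d2⟩ := tail_real n (rp vq (n + 1)) (rp_monic _ _) (rp_deg _ _) (by
    intro j hj
    rw [rp_eval]
    have := sign_prod vq (bq j) (n + 1) (j + 1) (by omega) (fun i hi => by
        have h4 : (i : ℝ) ≤ j := by exact_mod_cast (by omega : i ≤ j)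
        unfold bq vq
        linarith) (fun i h2 h3 => by
        have h5 : (j : ℝ) + 1 ≤ i := by exact_mod_cast h2
        unfold bq vq
        linarith)
    rw [show n + 1 - (j + 1) = n - j by omega] at this
    exact this)
  refine ⟨join n (t + 2) α a (vq n), joinc n (t + 2) γ β 2 2, hp n N, ?_, ?_, ?_, ?_, ?_, ?_⟩
  · intro i
    unfold joinc
    split_ifs
    · exact γpos _
    · norm_num
    · exact βpos _
    · norm_num
  · rw [joinc, if_neg (by omega), if_pos rfl]
  · rw [joinc, if_neg (by omega), if_neg (by omega), if_neg (by omega)]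
  · rw [hp_deg]
  · rw [chi_join_tail _ _ _ _ _ _ _ _ _ n (by omega), d2, hp_b hn]
    have := chi_join_mid n (t + 2) α a γ β (vq n) 2 2 0 N (by omega)
    rw [zero_add] at this
    rw [this, c2]
  · rw [chi_join_tail _ _ _ _ _ _ _ _ _ (n + 1) (by omega), d1]
    have := chi_join_mid n (t + 2) α a γ β (vq n) 2 2 1 N (by omega)
    rw [show 1 + (n + 1) = n + 2 by omega] at this
    rw [this, hA, ← hp_e hn]
    have e : join n (t + 2) α a (vq n) (n + t + 3) = vq n := by
      rw [join, if_neg (by omega), if_neg (by omega)]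
    rw [e]
    have e2 : rp vq (n + 1) = rp vq n * (X - C (vq n)) := by
      unfold rp; rw [prod_range_succ]
    rw [e2]
    ring

theorem pair_ge2 (n j : ℕ) : 1 ≤ ((-2 : ℝ) - eq' n j) * ((-2 : ℝ) - bq j) := by
  unfold eq' vq bq
  have : (0 : ℝ) ≤ j := Nat.cast_nonneg j
  split_ifs <;> nlinarith

/-- **Odd data.** -/
theorem odd_data (n t : ℕ) (hn1 : 1 ≤ n) (hn : n ≤ t + 1) :
    ∃ (α γ : ℕ → ℝ) (H : ℝ[X]) (w : ℝ), (∀ i, 0 < γ i) ∧ 0 < w ∧
    H.natDegree = t + 1 - n ∧
    chi α γ 0 n * H = chi α γ (n + 1) (t + 1) ∧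
    C (2 * w * γ (n + t + 3) / γ (n + 1)) * (chi α γ 0 (n + 1) * H) =
      (X - C (α (n + t + 3) - 2 * w)) * chi α γ (n + 2) (t + 2) - chi α γ (n + 1) (t + 3) +
        C (2 * w * γ (n + t + 3)) * chi α γ (n + 2) t := by
  set N := t + 1 with hN
  set A1 := rp (eq' n) N with hA1
  set B := rp bq N with hB
  have q2 := prod_ge (n := n) (N := N) (s := -2) fun j => pair_ge2 n j
  rw [← hA1, ← hB] at q2
  have B2 : B.eval (-2) ≠ 0 := by intro h; rw [h] at q2; norm_num at q2
  set ρ := A1.eval (-2) / B.eval (-2) with hρ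
  have ρpos : 0 < ρ := by
    rw [hρ, div_pos_iff]
    rcases lt_or_gt_of_ne B2 with h | h
    · right; exact ⟨by nlinarith, h⟩
    · left; exact ⟨by nlinarith, h⟩
  have ρe : ρ * B.eval (-2) = A1.eval (-2) := by rw [hρ]; exact div_mul_cancel₀ _ B2
  set ε : ℝ := 1 / (4 * (N : ℝ) + 4) with hε
  have εpos : 0 < ε := by rw [hε]; positivity
  set Θ : ℝ[X] := B * ((X + 1) * A1 + C ρ * B) - C ε * (X + 1) ^ 2 with hΘ
  have ev : ∀ s, Θ.eval s = (s + 1) * (A1.eval s * B.eval s) + ρ * (B.eval s) ^ 2 -
      ε * (s + 1) ^ 2 := by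
    intro s
    rw [hΘ]
    simp only [eval_sub, eval_mul, eval_add, eval_C, eval_X, eval_one, eval_pow]
    ring
  have Bm1 : B.eval (-1) ≠ 0 := by
    intro h
    have := prod_ge (n := n) (N := N) (s := -1) fun j => pair_ge' n j
    rw [← hB, h] at this
    norm_num at this
  have T2 : Θ.eval (-2) < 0 := by
    rw [ev, ← ρe]
    have : (-2 + 1 : ℝ) * (ρ * B.eval (-2) * B.eval (-2)) + ρ * B.eval (-2) ^ 2 -
      ε * (-2 + 1) ^ 2 = -ε := by ring
    rw [this]; linarith
  have T1 : 0 < Θ.eval (-1) := by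
    rw [ev]
    have : (-1 + 1 : ℝ) * (A1.eval (-1) * B.eval (-1)) + ρ * B.eval (-1) ^ 2 -
      ε * (-1 + 1) ^ 2 = ρ * B.eval (-1) ^ 2 := by ring
    rw [this]; positivity
  have Tb : ∀ i, i < N → Θ.eval (bq i) < 0 := by
    intro i hi
    have h1 : B.eval (bq i) = 0 := rp_root bq N i hi
    rw [ev, h1]
    have : 0 < bq i + 1 := by unfold bq; positivity
    have h2 : 0 < ε * (bq i + 1) ^ 2 := by positivity
    have h3 : (bq i + 1) * (A1.eval (bq i) * 0) + ρ * (0 : ℝ) ^ 2 - ε * (bq i + 1) ^ 2 =
      -(ε * (bq i + 1) ^ 2) := by ring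
    rw [h3]; linarith
  have Tt : ∀ i, i < N → 0 < Θ.eval (bq i + 1) := by
    intro i hi
    have h1 := prod_ge (n := n) (N := N) (s := 4 * (i : ℝ) + 2) fun j => pair_ge n j i
    have e : bq i + 1 = 4 * (i : ℝ) + 2 := by unfold bq; ring
    rw [ev, e]
    rw [← hA1, ← hB] at h1
    have h0 : (0 : ℝ) ≤ i := Nat.cast_nonneg i
    have hiN : (i : ℝ) + 1 ≤ N := by exact_mod_cast hi
    have h2 : ε * (4 * (i : ℝ) + 2 + 1) < 1 := by
      rw [hε, one_div, inv_mul_lt_iff₀ (by positivity)]
      linarith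
    have h3 : 0 < 4 * (i : ℝ) + 2 + 1 := by positivity
    have h4 : 0 ≤ ρ * (B.eval (4 * (i : ℝ) + 2)) ^ 2 := by positivity
    nlinarith [mul_pos h3 (sub_pos.2 h2), mul_nonneg h3.le (sub_nonneg.2 h1)]
  obtain ⟨y0, h01, h02, h03⟩ := ivt_poly Θ (by norm_num : (-2 : ℝ) < -1) (by nlinarith)
  obtain ⟨y1, h11, h12, h13⟩ := ivt_poly Θ (by unfold bq; norm_num : (-1 : ℝ) < bq 0)
    (by nlinarith [Tb 0 (by omega)])
  have r1 : ∀ i, i < N → ∃ z, bq i < z ∧ z < bq i + 1 ∧ Θ.eval z = 0 := by
    intro i hi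
    exact ivt_poly Θ (by linarith) (by nlinarith [Tb i hi, Tt i hi])
  choose! x1 h21 h22 h23 using r1
  set x : ℕ → ℝ := fun i => if i = 0 then y0 else if i = 1 then y1 else x1 (i - 2) with hx
  have hx0 : x 0 = y0 := by rw [hx]; simp
  have hx1 : x 1 = y1 := by rw [hx]; simp
  have hxs : ∀ i, x (i + 2) = x1 i := by intro i; rw [hx]; simp
  have b0 : bq 0 = 1 := by unfold bq; simp
  have xup : ∀ i j, i < j + 2 → j < N → x i < bq j := by
    intro i j hij hj
    have hj0 : (0 : ℝ) ≤ j := Nat.cast_nonneg j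
    match i with
    | 0 => rw [hx0]; unfold bq; linarith
    | 1 => rw [hx1]; rw [b0] at h12; unfold bq; linarith
    | (i + 2) =>
      rw [hxs]
      have h1 := h22 i (by omega)
      have h2 : (i : ℝ) + 1 ≤ j := by exact_mod_cast (by omega : i + 1 ≤ j)
      unfold bq at h1 ⊢
      linarith
  have xlo : ∀ i j, j + 2 ≤ i → i < N + 2 → bq j < x i := by
    intro i j hij hi
    obtain ⟨i', rfl⟩ : ∃ i', i = i' + 2 := ⟨i - 2, by omega⟩
    rw [hxs]
    have h1 := h21 i' (by omega)
    have h2 : (j : ℝ) ≤ i' := by exact_mod_cast (by omega : j ≤ i')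
    unfold bq at h1 ⊢
    linarith
  have xm : ∀ i j, i < j → j < N + 2 → x i < x j := by
    intro i j hij hj
    match j with
    | 0 => omega
    | 1 =>
      have : i = 0 := by omega
      rw [this, hx0, hx1]
      linarith
    | (j + 2) => exact (xup i j (by omega) (by omega)).trans (xlo (j + 2) j le_rfl hj)
  have xT : ∀ i, i < N + 2 → Θ.eval (x i) = 0 := by
    intro i hi
    match i with
    | 0 => rw [hx0]; exact h03
    | 1 => rw [hx1]; exact h13
    | (i + 2) => rw [hxs]; exact h23 i (by omega)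
  have xne : ∀ i, i < N + 2 → x i + 1 ≠ 0 := by
    intro i hi h
    have := xT i hi
    rw [show x i = -1 by linarith] at this
    linarith
  set F := rp x (N + 2) with hF
  -- β²
  have sF : 0 < (-1) ^ (N + 1) * F.eval (-1) := by
    rw [hF, rp_eval]
    have := sign_prod x (-1) (N + 2) 1 (by omega) (fun i hi => by
      have : i = 0 := by omega
      rw [this, hx0]; exact h02) (fun i h1 h2 => by
      match i with
      | 0 => omega
      | 1 => rw [hx1]; exact h11
      | (i + 2) =>
        rw [hxs]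
        have h1 := h21 i (by omega)
        have h3 : (0 : ℝ) ≤ i := Nat.cast_nonneg i
        unfold bq at h1
        linarith)
    rw [show N + 2 - 1 = N + 1 by omega] at this
    exact this
  have sB : 0 < (-1) ^ N * B.eval (-1) := by
    rw [hB, rp_eval]
    have := sign_prod bq (-1) N 0 (by omega) (fun i hi => by omega) (fun i _ _ => by
      have h3 : (0 : ℝ) ≤ i := Nat.cast_nonneg i
      unfold bq
      linarith)
    simpa using this
  have sFB : F.eval (-1) * B.eval (-1) < 0 := by
    have h1 := mul_pos sF sB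
    have h2 : (-1 : ℝ) ^ (N + 1) * F.eval (-1) * ((-1) ^ N * B.eval (-1)) =
        -(((-1) ^ N) ^ 2 * (F.eval (-1) * B.eval (-1))) := by
      rw [pow_succ]; ring
    rw [h2, ← pow_mul, mul_comm N 2, pow_mul] at h1
    norm_num at h1
    linarith
  set be := -(F.eval (-1)) / B.eval (-1) with hbe
  have bepos : 0 < be := by
    rw [hbe, div_pos_iff]
    rcases lt_or_gt_of_ne Bm1 with h | h
    · right; exact ⟨by nlinarith, h⟩
    · left; exact ⟨by nlinarith, h⟩
  have bee : be * B.eval (-1) = -(F.eval (-1)) := by rw [hbe]; exact div_mul_cancel₀ _ Bm1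
  obtain ⟨Cp, hCp⟩ : (X - C (-1)) ∣ (F + C be * B) := by
    rw [dvd_iff_isRoot, IsRoot, eval_add, eval_mul, eval_C, bee]
    ring
  have Fm : F.Monic := rp_monic _ _
  have Fd : F.natDegree = N + 2 := rp_deg _ _
  have Bd : B.natDegree = N := rp_deg _ _
  have cBd : (C be * B).natDegree ≤ N := (natDegree_C_mul_le _ _).trans Bd.le
  have Sm : (F + C be * B).Monic := by
    refine Fm.add_of_left ?_
    rw [degree_eq_natDegree Fm.ne_zero, Fd]
    refine lt_of_le_of_lt degree_le_natDegree ?_
    exact_mod_cast lt_of_le_of_lt cBd (by omega)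
  have Sd : (F + C be * B).natDegree = N + 2 := by
    rw [natDegree_add_eq_left_of_natDegree_lt (by omega), Fd]
  have Cm : Cp.Monic := by
    rw [hCp] at Sm
    exact (monic_X_sub_C _).of_mul_monic_left Sm
  have Cd : Cp.natDegree = N + 1 := by
    rw [hCp, (monic_X_sub_C _).natDegree_mul Cm, natDegree_X_sub_C] at Sd
    omega
  have Ce : ∀ s, (s + 1) * Cp.eval s = F.eval s + be * B.eval s := by
    intro s
    have := congrArg (eval s) hCp
    rw [eval_add, eval_mul, eval_mul, eval_C, eval_sub, eval_X, eval_C] at this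
    linarith
  obtain ⟨a, β, βpos, c1, c2⟩ := realize N Cp bq Cm Cd (fun i j h _ => bq_mono i j h) (by
    intro j hj
    have h1 := Ce (bq j)
    rw [show B.eval (bq j) = 0 from rp_root bq N j hj] at h1
    have h2 := sign_prod x (bq j) (N + 2) (j + 2) (by omega) (fun i hi => xup i j hi hj)
      (fun i h1 h2 => xlo i j h1 h2)
    rw [show N + 2 - (j + 2) = N - j by omega, ← rp_eval, ← hF] at h2
    have h3 : 0 < bq j + 1 := by unfold bq; positivity
    have h4 : (bq j + 1) * ((-1) ^ (N - j) * Cp.eval (bq j)) = (-1) ^ (N - j) * F.eval (bq j) := by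
      linear_combination (-1) ^ (N - j) * h1
    rw [← h4] at h2
    exact (pos_iff_pos_of_mul_pos h2).1 h3)
  set ω := ∏ j ∈ range (t + 1), β (0 + j + 1) with hω
  have ωpos : 0 < ω := prod_pos fun i _ => βpos _
  have wr := chi_wronskian a β 0 t
  rw [zero_add, ← hω, show t + 2 = N + 1 by omega, ← hN, c1, c2, ← hB] at wr
  set A := chi a β 1 N with hA
  set G := chi a β 1 t with hG
  set aa := be / ρ with haa
  have aapos : 0 < aa := div_pos bepos ρpos
  have aae : aa * ρ = be := by rw [haa]; exact div_mul_cancel₀ _ ρpos.ne'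
  have key0 : C (aa * ε) * ((X + 1) * A - C be * G) - C ω * (Cp + C aa * A1) = 0 := by
    have Ad : A.natDegree = N := chi_deg _ _ _ _
    have Gd : G.natDegree = t := chi_deg _ _ _ _
    have A1d : A1.natDegree = N := rp_deg _ _
    refine eq_zero_of_roots (d := N + 2) (x := x) ?_ xm ?_
    · have h1 : ((X + 1 : ℝ[X]) * A).natDegree ≤ N + 1 := by
        refine natDegree_mul_le.trans ?_
        have : (X + 1 : ℝ[X]).natDegree ≤ 1 := by
          have := natDegree_X_add_C (1 : ℝ)
          rw [map_one] at this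
          omega
        omega
      have h2 : (C be * G).natDegree ≤ N + 1 := (natDegree_C_mul_le _ _).trans (by omega)
      have h3 : (C (aa * ε) * ((X + 1) * A - C be * G)).natDegree ≤ N + 1 := by
        refine (natDegree_C_mul_le _ _).trans ((natDegree_sub_le _ _).trans ?_)
        omega
      have h4 : (C aa * A1).natDegree ≤ N + 1 := (natDegree_C_mul_le _ _).trans (by omega)
      have h5 : (C ω * (Cp + C aa * A1)).natDegree ≤ N + 1 := by
        refine (natDegree_C_mul_le _ _).trans ((natDegree_add_le _ _).trans ?_)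
        omega
      have h6 := natDegree_sub_le (C (aa * ε) * ((X + 1) * A - C be * G))
        (C ω * (Cp + C aa * A1))
      omega
    · intro i hi
      have w1 := congrArg (eval (x i)) wr
      rw [eval_sub, eval_mul, eval_mul, eval_C] at w1
      have w2 := Ce (x i)
      rw [show F.eval (x i) = 0 from rp_root x _ _ hi, zero_add] at w2
      have w3 := xT i hi
      rw [ev] at w3
      have ne := xne i hi
      -- A° Cp = be ω
      have e1 : ((x i + 1) * A.eval (x i) - be * G.eval (x i)) * Cp.eval (x i) = be * ω := by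
        linear_combination A.eval (x i) * w2 + be * w1
      have e2 : (Cp.eval (x i) + aa * A1.eval (x i)) * Cp.eval (x i) = be * aa * ε := by
        have : (x i + 1) ^ 2 * ((Cp.eval (x i) + aa * A1.eval (x i)) * Cp.eval (x i)) =
            (x i + 1) ^ 2 * (be * aa * ε) := by
          have h1 : (x i + 1) ^ 2 * ((Cp.eval (x i) + aa * A1.eval (x i)) * Cp.eval (x i)) =
            ((x i + 1) * Cp.eval (x i)) ^ 2 +
              aa * A1.eval (x i) * (x i + 1) * ((x i + 1) * Cp.eval (x i)) := by ring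
          rw [h1, w2]
          have h2 : be * B.eval (x i) = aa * ρ * B.eval (x i) := by rw [aae]
          linear_combination be * aa * w3 + be * B.eval (x i) * h2
        exact mul_left_cancel₀ (pow_ne_zero 2 ne) this
      have cne : Cp.eval (x i) ≠ 0 := by
        intro h
        rw [h, mul_zero] at e1
        exact (mul_pos bepos ωpos).ne e1
      have : eval (x i) (C (aa * ε) * ((X + 1) * A - C be * G) - C ω * (Cp + C aa * A1)) =
          aa * ε * ((x i + 1) * A.eval (x i) - be * G.eval (x i)) -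
            ω * (Cp.eval (x i) + aa * A1.eval (x i)) := by
        simp only [eval_sub, eval_mul, eval_add, eval_C, eval_X, eval_one]
      rw [this]
      refine mul_right_cancel₀ cne ?_
      linear_combination aa * ε * e1 - ω * e2
  have lc : aa * ε = ω := by
    have l0 := congrArg (fun p => coeff p (N + 1)) key0
    have l1 := (chi_monic a β 1 N).coeff_natDegree
    have l2 := Cm.coeff_natDegree
    rw [chi_deg, ← hA] at l1
    rw [Cd] at l2
    have l3 : A.coeff (N + 1) = 0 := coeff_eq_zero_of_natDegree_lt (by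
      rw [hA, chi_deg]; omega)
    have l4 : G.coeff (N + 1) = 0 := coeff_eq_zero_of_natDegree_lt (by
      rw [hG, chi_deg]; omega)
    have l5 : A1.coeff (N + 1) = 0 := coeff_eq_zero_of_natDegree_lt (by
      rw [hA1, rp_deg]; omega)
    have l6 : ((X + 1) * A).coeff (N + 1) = 1 := by
      rw [add_mul, coeff_add, coeff_X_mul, one_mul, l1, l3, add_zero]
    simp only [coeff_sub, coeff_C_mul, coeff_zero, coeff_add, l2, l4, l5, l6] at l0
    linarith
  have key : (X + 1) * A - C be * G = Cp + C aa * A1 := by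
    rw [lc, ← mul_sub] at key0
    have := (mul_eq_zero.1 key0).resolve_left (by
      intro h0
      rw [C_eq_zero] at h0
      exact ωpos.ne' h0)
    exact sub_eq_zero.1 this
  -- the tail
  set ft : ℝ[X] := rp vq (n + 1) + C ρ * rp bq n with hft
  have ftd0 : (C ρ * rp bq n).natDegree ≤ n := (natDegree_C_mul_le _ _).trans (rp_deg _ _).le
  obtain ⟨α, γ, γpos, d1, d2⟩ := tail_real n ft (by
      rw [hft]
      refine (rp_monic _ _).add_of_left ?_
      rw [degree_eq_natDegree (rp_monic _ _).ne_zero, rp_deg]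
      refine lt_of_le_of_lt degree_le_natDegree ?_
      exact_mod_cast lt_of_le_of_lt ftd0 (by omega))
    (by
      rw [hft, natDegree_add_eq_left_of_natDegree_lt (by rw [rp_deg]; omega), rp_deg]) (by
    intro j hj
    rw [hft, eval_add, eval_mul, rp_root bq n j hj, mul_zero, add_zero, rp_eval]
    have := sign_prod vq (bq j) (n + 1) (j + 1) (by omega) (fun i hi => by
        have h4 : (i : ℝ) ≤ j := by exact_mod_cast (by omega : i ≤ j)
        unfold bq vq
        linarith) (fun i h2 h3 => by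
        have h5 : (j : ℝ) + 1 ≤ i := by exact_mod_cast h2
        unfold bq vq
        linarith)
    rw [show n + 1 - (j + 1) = n - j by omega] at this
    exact this)
  set w : ℝ := (4 * (n : ℝ) + 1) / 2 with hw
  have wpos : 0 < w := by rw [hw]; positivity
  set cc : ℝ := ρ * (2 * w) with hcc
  have ccpos : 0 < cc := by rw [hcc]; positivity
  set α' := join n (t + 2) α a (vq n) with hα'
  set γ' := joinc n (t + 2) γ β cc be with hγ'
  have g1 : γ' (n + 1) = cc := by rw [hγ', joinc, if_neg (by omega), if_pos rfl]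
  have g2 : γ' (n + t + 3) = be := by
    rw [hγ', joinc, if_neg (by omega), if_neg (by omega), if_neg (by omega)]
  have g3 : α' (n + t + 3) = vq n := by
    rw [hα', join, if_neg (by omega), if_neg (by omega)]
  have k1 : chi α' γ' (n + 1) (t + 1) = B := by
    have := chi_join_mid n (t + 2) α a γ β (vq n) cc be 0 N (by omega)
    rw [zero_add] at this
    rw [← hα', ← hγ'] at this
    rw [this, c2]
  have k2 : chi α' γ' (n + 1) (t + 2) = Cp := by
    have := chi_join_mid n (t + 2) α a γ β (vq n) cc be 0 (N + 1) (by omega)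
    rw [zero_add, c1] at this
    rw [← hα', ← hγ'] at this
    exact this
  have k3 : chi α' γ' (n + 2) (t + 1) = A := by
    have := chi_join_mid n (t + 2) α a γ β (vq n) cc be 1 N (by omega)
    rw [show 1 + (n + 1) = n + 2 by omega] at this
    rw [← hα', ← hγ'] at this
    exact this
  have k4 : chi α' γ' (n + 2) t = G := by
    have := chi_join_mid n (t + 2) α a γ β (vq n) cc be 1 t (by omega)
    rw [show 1 + (n + 1) = n + 2 by omega] at this
    rw [← hα', ← hγ'] at this
    exact this
  have k5 : chi α' γ' (n + 2) (t + 2) = (X - C (vq n)) * A - C be * G := by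
    rw [chi_succ, k3, k4, show n + 2 + t + 1 = n + t + 3 by omega, g2, g3]
  have k6 : chi α' γ' (n + 1) (t + 3) = (X - C (vq n)) * Cp - C be * B := by
    have := chi_succ α' γ' (n + 1) (t + 1)
    rw [show t + 1 + 2 = t + 3 by omega, show t + 1 + 1 = t + 2 by omega, k1, k2,
      show n + 1 + (t + 1) + 1 = n + t + 3 by omega, g2, g3] at this
    exact this
  refine ⟨α', γ', hp n N, w, ?_, wpos, ?_, ?_, ?_⟩
  · intro i
    rw [hγ']
    unfold joinc
    split_ifs
    · exact γpos _
    · exact ccpos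
    · exact βpos _
    · exact bepos
  · rw [hp_deg]
  · rw [hα', hγ', chi_join_tail _ _ _ _ _ _ _ _ _ n (by omega), d2, hp_b hn, ← hα', ← hγ', k1]
  · rw [k4, k5, k6, g1, g2, g3]
    have e0 : chi α' γ' 0 (n + 1) = ft := by
      rw [hα', hγ', chi_join_tail _ _ _ _ _ _ _ _ _ (n + 1) (by omega), d1]
    rw [e0, hft]
    have e1 : 2 * w * be / cc = aa := by
      rw [hcc, haa]
      field_simp
    have e2 : rp vq (n + 1) = rp vq n * (X - C (vq n)) := by
      unfold rp; rw [prod_range_succ]
    have e3 : (rp vq n) * hp n N = A1 := hp_e hn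
    have e4 : (rp bq n) * hp n N = B := hp_b hn
    have e5 : vq n - 2 * w = -1 := by rw [hw]; unfold vq; ring
    have e6 : (C (2 * w) : ℝ[X]) = C (vq n) + 1 := by
      rw [← map_one C, ← map_add]
      congr 1
      linarith
    have e7 : (C aa * C ρ : ℝ[X]) = C be := by rw [← map_mul, aae]
    rw [e1, e2, e5, map_mul C (2 * w) be, e6, map_neg, map_one, sub_neg_eq_add]
    linear_combination (C aa * (X - C (vq n))) * e3 + C aa * C ρ * e4 + B * e7 +
      (-(X - C (vq n))) * key

end Pool.Agent.L5helper38.Tad
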