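import Pool.Agent.L5helper38.TadGeo

/-!
# The SSP tadpoles

For all `m ≥ 6` and `n ≥ 1` (in fact for all `m ≥ 3`) the tadpole `T_{m,n}` belongs to `G^SSP` if
and only if `m ≤ 2 n + 3`.

The graphs, the symmetric matrices of a graph, the strong spectral property and the class of the
SSP graphs are those of `Pool.Agent.Results.MP_34deb4_co.LongTails`.
-/

set_option autoImplicit false

open Polynomial Finset
open Pool.Agent.Results.MP_34deb4_co.LongTails

namespace Pool.Agent.L5helper38.TadFinal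

open Pool.Agent.L5helper38.Tad

/-- the edge weights -/
noncomputable def tw (γ : ℕ → ℝ) (m n q : ℕ) : ℝ :=
  √(γ q / ((if q = n + 1 then 2 else 1) * (if 2 * (q - n) = m then 2 else 1)))

theorem tw_ne {γ : ℕ → ℝ} (hγ : ∀ q, 0 < γ q) (m n q : ℕ) : tw γ m n q ≠ 0 := by
  unfold tw
  refine (Real.sqrt_pos.2 (div_pos (hγ q) ?_)).ne'
  split_ifs <;> norm_num

theorem tw_mul {γ : ℕ → ℝ} (hγ : ∀ q, 0 < γ q) (m n q : ℕ) :
    lc n (tw γ m n) (q + 1) * rc n m (tw γ m n) q = γ (q + 1) := by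
  unfold lc rc
  set a : ℝ := if q + 1 = n + 1 then 2 else 1 with ha
  set b : ℝ := if 2 * (q + 1 - n) = m then 2 else 1 with hb
  have apos : 0 < a := by rw [ha]; split_ifs <;> norm_num
  have bpos : 0 < b := by rw [hb]; split_ifs <;> norm_num
  have e : tw γ m n (q + 1) * tw γ m n (q + 1) = γ (q + 1) / (a * b) := by
    unfold tw
    rw [← ha, ← hb]
    exact Real.mul_self_sqrt (div_nonneg (hγ _).le (by positivity))
  calc tw γ m n (q + 1) * a * (tw γ m n (q + 1) * b)
      = tw γ m n (q + 1) * tw γ m n (q + 1) * (a * b) := by ring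
    _ = γ (q + 1) := by rw [e]; exact div_mul_cancel₀ _ (by positivity)

theorem rf_ne {m n : ℕ} (hm0 : 0 < m) (x : Fin m ⊕ Fin n) (h1 : n < ps m n x)
    (h2 : 2 * (ps m n x - n) < m) : rf m n x ≠ x := by
  rcases vx_or hm0 x with h | h
  · rw [h]; exact rf_vx_ne hm0 h2 h1
  · rw [h, rf_rf]
    exact (rf_vx_ne hm0 h2 h1).symm

theorem mat_cross {m n : ℕ} (hm : 6 ≤ m) (hm0 : 0 < m) (dg tw : ℕ → ℝ) (w : ℝ) {p q : ℕ}
    (hp : 2 * (p - n) ≤ m) (hq : 2 * (q - n) < m) (hqn : n < q)
    (h : ¬ ((p = n ∧ q = n + 1) ∨ (2 * (p - n) = m ∧ q + 1 = p) ∨ (2 * (p - n) + 1 = m ∧ q = p))) :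
    mat m n dg tw w (vx m n hm0 p) (rf m n (vx m n hm0 q)) = 0 := by
  unfold mat
  rw [if_neg, if_neg (fun h' => h ((adj_vx' (by omega) hm0 hp hq hqn (by omega)).1 h'))]
  intro h'
  have h3 : p = q := by rw [← ps_vx hm0 hp, ← ps_vx hm0 hq.le, h', ps_rf]
  rw [h3] at h'
  exact rf_vx_ne hm0 hq hqn h'.symm

theorem mat_swap {m n : ℕ} (hm : 3 ≤ m) (dg tw : ℕ → ℝ) (w : ℝ) (x y : Fin m ⊕ Fin n) :
    mat m n dg tw w (rf m n x) y = mat m n dg tw w x (rf m n y) := by
  have := mat_rf hm dg tw w x (rf m n y)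
  rwa [rf_rf] at this

theorem contra {m n : ℕ} {dg t' : ℕ → ℝ} {w : ℝ} (hw : w ≠ 0) (ht : ∀ q, t' q ≠ 0)
    (h : ∃ Xm : Matrix (Fin m ⊕ Fin n) (Fin m ⊕ Fin n) ℝ, Xm.IsSymm ∧
      mat m n dg t' w * Xm = Xm * mat m n dg t' w ∧
      (∀ i j, (i = j ∨ mat m n dg t' w i j ≠ 0) → Xm i j = 0) ∧ Xm ≠ 0) :
    ¬ IsSSPGraph (tadpole m n) := by
  intro hS
  obtain ⟨Xm, x1, x2, x3, x4⟩ := h
  refine x4 (hS _ (mat_inS hw ht) Xm x1 (fun i j => ?_) (fun i => x3 i i (Or.inl rfl)) x2)
  by_cases h0 : mat m n dg t' w i j = 0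
  · rw [h0, zero_mul]
  · rw [x3 i j (Or.inr h0), mul_zero]

theorem even_not {n t : ℕ} (hn1 : 1 ≤ n) (hn : n ≤ t + 1) :
    ¬ IsSSPGraph (tadpole (2 * (t + 3)) n) := by
  obtain ⟨α, γ, H, hγ, g1, g2, hH, e1, e2⟩ := even_data n t hn1 hn
  set m := 2 * (t + 3) with hm
  have hm0 : 0 < m := by omega
  have G := geo (m := m) (n := n) (t := t) (α := α) (γ := γ) (dg := α) (tw := tw γ m n) (w := 1)
    (Or.inl hm.symm) (tw_ne hγ m n)
    (fun q hq => by rw [if_neg (by omega), add_zero]) (fun q _ => tw_mul hγ m n q)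
  refine contra (dg := α) (t' := tw γ m n) one_ne_zero (tw_ne hγ m n)
    (even_case G hn H hγ (g1.trans g2.symm) hH e1 e2 ?_ ?_ ?_ ?_ (vx m n hm0 (n + 1))
      (ps_vx hm0 (by omega)))
  · intro x
    have := ps_le x
    omega
  · intro x h1 h2
    exact rf_ne hm0 x (by omega) (by omega)
  · intro x hx
    change rf m n x = x
    rcases vx_or hm0 x with h | h
    · rw [h, rf_vx_eq hm0 (by omega) (Or.inr (by omega))]
    · rw [h, rf_rf, rf_vx_eq hm0 (by omega) (Or.inr (by omega))]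
  · intro x y hxy h h'
    have hadj : (tadpole m n).Adj x y := by
      by_contra h''
      apply h
      unfold mat
      rw [if_neg hxy, if_neg h'']
    have := adj_ps (by omega) x y hadj
    omega

theorem odd_not {n t : ℕ} (hn1 : 1 ≤ n) (hn : n ≤ t + 1) :
    ¬ IsSSPGraph (tadpole (2 * (t + 3) + 1) n) := by
  obtain ⟨α, γ, H, w, hγ, hw, hH, e1, e2⟩ := odd_data n t hn1 hn
  set m := 2 * (t + 3) + 1 with hm
  have hm0 : 0 < m := by omega
  have hm6 : 6 ≤ m := by omega
  set dg : ℕ → ℝ := fun q => α q - (if 2 * (q - n) + 1 = m then w else 0) with hdg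
  have G := geo (m := m) (n := n) (t := t) (α := α) (γ := γ) (dg := dg) (tw := tw γ m n) (w := w)
    (Or.inr hm.symm) (tw_ne hγ m n)
    (fun q hq => by rw [hdg]; simp only; ring) (fun q _ => tw_mul hγ m n q)
  have pv1 : ps m n (vx m n hm0 (n + 1)) = n + 1 := ps_vx hm0 (by omega)
  have pv2 : ps m n (vx m n hm0 (n + 2)) = n + 2 := ps_vx hm0 (by omega)
  have pl : ∀ x : Fin m ⊕ Fin n, ps m n x ≤ n + t + 3 := by
    intro x
    have := ps_le x
    omega
  refine contra (dg := dg) (t' := tw γ m n) hw.ne' (tw_ne hγ m n)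
    (odd_case G hn H w hγ hH e1 e2 pl ?_ ?_ ?_ ?_ ?_ (rf m n (vx m n hm0 (n + 1)))
      (vx m n hm0 (n + 2)) (by rw [ps_rf, pv1]) pv2 ?_)
  · intro x h1
    have := pl x
    exact rf_ne hm0 x (by omega) (by omega)
  · -- the top edge
    intro x hx
    change mat m n dg (tw γ m n) w x (rf m n x) = w
    have base : mat m n dg (tw γ m n) w (vx m n hm0 (n + t + 3))
        (rf m n (vx m n hm0 (n + t + 3))) = w := by
      unfold mat
      rw [if_neg (rf_vx_ne hm0 (by omega) (by omega)).symm, if_pos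
        ((adj_vx' (by omega) hm0 (by omega) (by omega) (by omega) (by omega)).2
          (Or.inr (Or.inr ⟨by omega, rfl⟩))), ps_rf, if_pos rfl]
    rcases vx_or hm0 x with h | h
    · rw [h, hx]; exact base
    · rw [h, hx, rf_rf, mat_swap (by omega)]; exact base
  · intro x hx
    unfold mat
    rw [if_pos rfl, hx, hdg]
    simp only
    rw [if_pos (by omega)]
  · intro x h1 h2
    change mat m n dg (tw γ m n) w x (rf m n x) = 0
    have base : mat m n dg (tw γ m n) w (vx m n hm0 (ps m n x))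
        (rf m n (vx m n hm0 (ps m n x))) = 0 :=
      mat_cross hm6 hm0 _ _ _ (by omega) (by omega) (by omega) (by omega)
    rcases vx_or hm0 x with h | h
    · rw [← h] at base; exact base
    · conv_lhs => rw [h]
      rw [rf_rf, mat_swap (by omega)]; exact base
  · intro x y h1 h2 h3
    change mat m n dg (tw γ m n) w x (rf m n y) = 0
    have := pl x
    have base : mat m n dg (tw γ m n) w (vx m n hm0 (ps m n x))
        (rf m n (vx m n hm0 (ps m n y))) = 0 :=
      mat_cross hm6 hm0 _ _ _ (by omega) (by omega) (by omega) (by omega)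
    rcases vx_or hm0 x with hx | hx <;> rcases vx_or hm0 y with hy | hy
    · rw [← hx, ← hy] at base; exact base
    · exfalso; apply h3
      conv_lhs => rw [hx, hy]
      exact base
    · exfalso; apply h3
      conv_lhs => rw [hx, hy]
      rw [mat_swap (by omega)]
      exact base
    · conv_lhs => rw [hx, hy]
      rw [rf_rf, mat_swap (by omega)]
      exact base
  · change mat m n dg (tw γ m n) w _ (rf m n (rf m n _)) ≠ 0
    rw [rf_rf]
    unfold mat
    rw [if_neg, if_pos ((adj_vx (by omega) hm0 (by omega) (by omega) (by omega)).2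
      (Or.inr rfl)), pv1, pv2, if_neg (by omega)]
    · exact tw_ne hγ m n _
    · intro h
      have := congrArg (ps m n) h
      rw [pv1, pv2] at this
      omega

/-- **The tadpole `T_{m,n}` is an SSP graph if and only if `m ≤ 2 n + 3`** (for all `m ≥ 6` and
`n ≥ 1`). -/
theorem main : ∀ m n : ℕ, 6 ≤ m → 1 ≤ n → (IsSSPGraph (tadpole m n) ↔ m ≤ 2 * n + 3) := by
  intro m n hm hn
  constructor
  · intro h
    by_contra h'
    rcases Nat.even_or_odd' m with ⟨k, hk | hk⟩
    · have e : m = 2 * ((k - 3) + 3) := by omega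
      rw [e] at h
      exact even_not hn (by omega) h
    · have e : m = 2 * ((k - 3) + 3) + 1 := by omega
      rw [e] at h
      exact odd_not hn (by omega) h
  · exact Pool.Agent.Results.MP_34deb4_co.LongTails.result m n (by omega) hn

end Pool.Agent.L5helper38.TadFinal
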