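import Pool.Agent.L5helper38.TadCases
import Pool.Agent.L5helper38.TadData
import Pool.Agent.Results.MP_34deb4_co.LongTails

/-! # The matrices of the tadpoles -/

set_option autoImplicit false

open Polynomial Finset
open Pool.Agent.Results.MP_34deb4_co.LongTails

namespace Pool.Agent.L5helper38.Tad

/-- the level of a vertex -/
def ps (m n : ℕ) : Fin m ⊕ Fin n → ℕ
  | .inl i => n + min i.1 (m - i.1)
  | .inr s => n - 1 - s.1

/-- the reflection -/
def rf (m n : ℕ) : Fin m ⊕ Fin n → Fin m ⊕ Fin n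
  | .inl i => if h : i.1 = 0 then .inl i else .inl ⟨m - i.1, by omega⟩
  | .inr s => .inr s

theorem rf_inl0 {m n : ℕ} (i : Fin m) (h : i.1 = 0) : rf m n (.inl i) = .inl i := by
  unfold rf; simp only; rw [dif_pos h]

theorem rf_inl {m n : ℕ} (i : Fin m) (h : i.1 ≠ 0) :
    rf m n (.inl i) = .inl ⟨m - i.1, by omega⟩ := by
  unfold rf; simp only; rw [dif_neg h]

theorem rf_rf (m n : ℕ) : Function.Involutive (rf m n) := by
  rintro (i | s)
  · by_cases h : i.1 = 0
    · rw [rf_inl0 i h, rf_inl0 i h]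
    · have := i.2
      rw [rf_inl i h, rf_inl _ (by simp only; omega)]
      congr 1
      exact Fin.ext (by simp only; omega)
  · rfl

theorem ps_rf (m n : ℕ) (x : Fin m ⊕ Fin n) : ps m n (rf m n x) = ps m n x := by
  rcases x with (i | s)
  · by_cases h : i.1 = 0
    · rw [rf_inl0 i h]
    · have := i.2
      rw [rf_inl i h]
      unfold ps
      simp only
      omega
  · rfl

theorem adj_cp {m n : ℕ} (i : Fin m) (j : Fin n) :
    (tadpole m n).Adj (.inl i) (.inr j) ↔ j.1 = 0 ∧ i.1 = 0 := by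
  rw [SimpleGraph.adj_comm]
  exact adj_pc j i

theorem adj_rf {m n : ℕ} (hm : 3 ≤ m) (x y : Fin m ⊕ Fin n) :
    (tadpole m n).Adj (rf m n x) (rf m n y) ↔ (tadpole m n).Adj x y := by
  rcases x with (i | s) <;> rcases y with (j | u)
  · have := i.2
    have := j.2
    by_cases hi : i.1 = 0 <;> by_cases hj : j.1 = 0
    · rw [rf_inl0 i hi, rf_inl0 j hj]
    · rw [rf_inl0 i hi, rf_inl j hj, adj_cc hm, adj_cc hm]
      simp only
      omega
    · rw [rf_inl i hi, rf_inl0 j hj, adj_cc hm, adj_cc hm]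
      simp only
      omega
    · rw [rf_inl i hi, rf_inl j hj, adj_cc hm, adj_cc hm]
      simp only
      omega
  · have := i.2
    by_cases hi : i.1 = 0
    · rw [rf_inl0 i hi]; rfl
    · rw [rf_inl i hi]
      change (tadpole m n).Adj (.inl _) (.inr u) ↔ _
      rw [adj_cp, adj_cp]
      simp only
      omega
  · have := j.2
    by_cases hj : j.1 = 0
    · rw [rf_inl0 j hj]; rfl
    · rw [rf_inl j hj]
      change (tadpole m n).Adj (.inr s) (.inl _) ↔ _
      rw [adj_pc, adj_pc]
      simp only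
      omega
  · rfl

/-- the main representative of a level -/
def vx (m n : ℕ) (hm : 0 < m) (q : ℕ) : Fin m ⊕ Fin n :=
  if h : q < n then .inr ⟨n - 1 - q, by omega⟩
  else if h' : q - n < m then .inl ⟨q - n, h'⟩ else .inl ⟨0, hm⟩

theorem vx_t {m n : ℕ} (hm : 0 < m) {q : ℕ} (h : q < n) :
    vx m n hm q = .inr ⟨n - 1 - q, by omega⟩ := by
  unfold vx; rw [dif_pos h]

theorem vx_c {m n : ℕ} (hm : 0 < m) {q : ℕ} (h : n ≤ q) (h' : q - n < m) :
    vx m n hm q = .inl ⟨q - n, h'⟩ := by
  unfold vx; rw [dif_neg (by omega), dif_pos h']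

theorem ps_vx {m n : ℕ} (hm : 0 < m) {q : ℕ} (h : 2 * (q - n) ≤ m) : ps m n (vx m n hm q) = q := by
  rcases Nat.lt_or_ge q n with h1 | h1
  · rw [vx_t hm h1]; unfold ps; simp only; omega
  · rw [vx_c hm h1 (by omega)]; unfold ps; simp only; omega

/-- every vertex is the main representative of its level or the reflection of it -/
theorem vx_or {m n : ℕ} (hm : 0 < m) (x : Fin m ⊕ Fin n) :
    x = vx m n hm (ps m n x) ∨ x = rf m n (vx m n hm (ps m n x)) := by
  rcases x with (i | s)
  · have := i.2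
    rcases Nat.lt_or_ge (m - i.1) i.1 with h | h
    · right
      have e : ps m n (.inl i) = n + (m - i.1) := by unfold ps; simp only; omega
      rw [e, vx_c hm (by omega) (by omega), rf_inl _ (by simp only; omega)]
      congr 1
      exact Fin.ext (by simp only; omega)
    · left
      have e : ps m n (.inl i) = n + i.1 := by unfold ps; simp only; omega
      rw [e, vx_c hm (by omega) (by omega)]
      congr 1
      exact Fin.ext (by simp only; omega)
  · left
    have := s.2
    have e : ps m n (.inr s) = n - 1 - s.1 := rfl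
    rw [e, vx_t hm (by omega)]
    congr 1
    exact Fin.ext (by simp only; omega)

open Classical in
/-- the matrix -/
noncomputable def mat (m n : ℕ) (dg tw : ℕ → ℝ) (w : ℝ) : Matrix (Fin m ⊕ Fin n) (Fin m ⊕ Fin n) ℝ :=
  fun x y => if x = y then dg (ps m n x) else if (tadpole m n).Adj x y then
    (if ps m n x = ps m n y then w else tw (max (ps m n x) (ps m n y))) else 0

theorem mat_symm (m n : ℕ) (dg tw : ℕ → ℝ) (w : ℝ) : (mat m n dg tw w).IsSymm := by
  ext x y
  rw [Matrix.transpose_apply]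
  unfold mat
  by_cases h : x = y
  · subst h; rfl
  · rw [if_neg h, if_neg (Ne.symm h), (tadpole m n).adj_comm y x, max_comm]
    congr 1
    by_cases h' : ps m n x = ps m n y
    · rw [if_pos h', if_pos h'.symm]
    · rw [if_neg h', if_neg (Ne.symm h')]

theorem mat_rf {m n : ℕ} (hm : 3 ≤ m) (dg tw : ℕ → ℝ) (w : ℝ) (x y : Fin m ⊕ Fin n) :
    mat m n dg tw w (rf m n x) (rf m n y) = mat m n dg tw w x y := by
  unfold mat
  simp only [ps_rf, (rf_rf m n).injective.eq_iff]
  by_cases h : x = y
  · rw [if_pos h, if_pos h]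
  · rw [if_neg h, if_neg h]
    by_cases h' : (tadpole m n).Adj x y
    · rw [if_pos h', if_pos ((adj_rf hm x y).2 h')]
    · rw [if_neg h', if_neg (fun h'' => h' ((adj_rf hm x y).1 h''))]

theorem mat_inS {m n : ℕ} {dg tw : ℕ → ℝ} {w : ℝ} (hw : w ≠ 0) (htw : ∀ q, tw q ≠ 0) :
    InS (tadpole m n) (mat m n dg tw w) := by
  refine ⟨mat_symm _ _ _ _ _, fun i j hij => ?_⟩
  unfold mat
  rw [if_neg hij]
  constructor
  · intro h
    by_contra h'
    rw [if_neg h'] at h
    exact h rfl
  · intro h
    rw [if_pos h]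
    split_ifs
    · exact hw
    · exact htw _

/-- adjacent vertices are on neighbouring levels, or both at the top of an odd cycle -/
theorem adj_ps {m n : ℕ} (hm : 3 ≤ m) (x y : Fin m ⊕ Fin n) (h : (tadpole m n).Adj x y) :
    ps m n x = ps m n y + 1 ∨ ps m n y = ps m n x + 1 ∨
      (ps m n x = ps m n y ∧ 2 * (ps m n x - n) + 1 = m ∧ n < ps m n x) := by
  rcases x with (i | s) <;> rcases y with (j | u)
  · have := i.2
    have := j.2
    rw [adj_cc hm] at h
    unfold ps
    simp only
    omega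
  · rw [adj_cp] at h
    unfold ps
    simp only
    omega
  · rw [adj_pc] at h
    unfold ps
    simp only
    omega
  · have := s.2
    have := u.2
    rw [adj_pp] at h
    unfold ps
    simp only
    omega

theorem adj_vx {m n : ℕ} (hm : 3 ≤ m) (hm0 : 0 < m) {p q : ℕ} (hp : 2 * (p - n) ≤ m)
    (hq : 2 * (q - n) ≤ m) (hmm : 4 ≤ m) :
    (tadpole m n).Adj (vx m n hm0 p) (vx m n hm0 q) ↔ p + 1 = q ∨ q + 1 = p := by
  rcases Nat.lt_or_ge p n with h1 | h1 <;> rcases Nat.lt_or_ge q n with h2 | h2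
  · rw [vx_t hm0 h1, vx_t hm0 h2, adj_pp]
    simp only
    omega
  · rw [vx_t hm0 h1, vx_c hm0 h2 (by omega), adj_pc]
    simp only
    omega
  · rw [vx_c hm0 h1 (by omega), vx_t hm0 h2, adj_cp]
    simp only
    omega
  · rw [vx_c hm0 h1 (by omega), vx_c hm0 h2 (by omega), adj_cc hm]
    simp only
    omega

theorem adj_vx' {m n : ℕ} (hm : 3 ≤ m) (hm0 : 0 < m) {p q : ℕ} (hp : 2 * (p - n) ≤ m)
    (hq : 2 * (q - n) < m) (hqn : n < q) (hmm : 4 ≤ m) :
    (tadpole m n).Adj (vx m n hm0 p) (rf m n (vx m n hm0 q)) ↔ (p = n ∧ q = n + 1) ∨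
      (2 * (p - n) = m ∧ q + 1 = p) ∨ (2 * (p - n) + 1 = m ∧ q = p) := by
  rw [vx_c hm0 hqn.le (by omega), rf_inl _ (by simp only; omega)]
  rcases Nat.lt_or_ge p n with h1 | h1
  · rw [vx_t hm0 h1, adj_pc]
    simp only
    omega
  · rw [vx_c hm0 h1 (by omega), adj_cc hm]
    simp only
    omega

theorem rf_vx_ne {m n : ℕ} (hm0 : 0 < m) {q : ℕ} (hq : 2 * (q - n) < m) (hqn : n < q) :
    rf m n (vx m n hm0 q) ≠ vx m n hm0 q := by
  rw [vx_c hm0 hqn.le (by omega), rf_inl _ (by simp only; omega)]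
  intro h
  rw [Sum.inl.injEq, Fin.mk.injEq] at h
  simp only at h
  omega

theorem rf_vx_eq {m n : ℕ} (hm0 : 0 < m) {q : ℕ} (hq : 2 * (q - n) ≤ m)
    (h : q ≤ n ∨ 2 * (q - n) = m) :
    rf m n (vx m n hm0 q) = vx m n hm0 q := by
  rcases Nat.lt_or_ge q n with h1 | h1
  · rw [vx_t hm0 h1]; rfl
  · rw [vx_c hm0 h1 (by omega)]
    rcases Nat.eq_or_lt_of_le h1 with h2 | h2
    · rw [rf_inl0 _ (by simp only; omega)]
    · rw [rf_inl _ (by simp only; omega)]
      congr 1
      exact Fin.ext (by simp only; omega)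

theorem ps_le {m n : ℕ} (x : Fin m ⊕ Fin n) : 2 * (ps m n x - n) ≤ m := by
  rcases x with (i | s)
  · unfold ps; simp only; omega
  · unfold ps; simp only; omega

theorem hP_aux {m n : ℕ} (hm : 0 < m) (x y : Fin m ⊕ Fin n) (h : ps m n y = ps m n x) :
    y = x ∨ y = rf m n x := by
  rcases vx_or hm x with h1 | h1 <;> rcases vx_or hm y with h2 | h2 <;> rw [h] at h2
  · left; rw [h2]; exact h1.symm
  · right; rw [h2, ← h1]
  · right; rw [h2]; conv_rhs => rw [h1]
    rw [rf_rf]
  · left; rw [h2]; exact h1.symm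

/-- summing over a level -/
theorem level_sum {m n : ℕ} (hm0 : 0 < m) (F : Fin m ⊕ Fin n → ℝ) (q : ℕ) (hq : 2 * (q - n) ≤ m) :
    ∑ y, F y * (if ps m n y = q then 1 else 0) = F (vx m n hm0 q) +
      (if rf m n (vx m n hm0 q) = vx m n hm0 q then 0 else F (rf m n (vx m n hm0 q))) := by
  have e : ∀ y, F y * (if ps m n y = q then (1 : ℝ) else 0) =
      if y ∈ ({vx m n hm0 q, rf m n (vx m n hm0 q)} : Finset (Fin m ⊕ Fin n)) then F y else 0 := by
    intro y
    by_cases h : ps m n y = q
    · have hmem : y ∈ ({vx m n hm0 q, rf m n (vx m n hm0 q)} : Finset (Fin m ⊕ Fin n)) := by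
        rw [Finset.mem_insert, Finset.mem_singleton]
        exact hP_aux hm0 (vx m n hm0 q) y (by rw [h, ps_vx hm0 hq])
      rw [if_pos h, if_pos hmem, mul_one]
    · have hmem : y ∉ ({vx m n hm0 q, rf m n (vx m n hm0 q)} : Finset (Fin m ⊕ Fin n)) := by
        rw [Finset.mem_insert, Finset.mem_singleton]
        rintro (h' | h')
        · exact h (by rw [h', ps_vx hm0 hq])
        · exact h (by rw [h', ps_rf, ps_vx hm0 hq])
      rw [if_neg h, if_neg hmem, mul_zero]
  rw [Finset.sum_congr rfl fun y _ => e y, Finset.sum_ite_mem, Finset.univ_inter]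
  by_cases h : rf m n (vx m n hm0 q) = vx m n hm0 q
  · rw [if_pos h, h, Finset.pair_eq_singleton, Finset.sum_singleton, add_zero]
  · rw [if_neg h, Finset.sum_pair (Ne.symm h)]

/-- the level vectors under the matrix: coefficients -/
noncomputable def lc (n : ℕ) (tw : ℕ → ℝ) (q : ℕ) : ℝ := tw q * (if q = n + 1 then 2 else 1)

noncomputable def rc (n m : ℕ) (tw : ℕ → ℝ) (q : ℕ) : ℝ :=
  tw (q + 1) * (if 2 * (q + 1 - n) = m then 2 else 1)

theorem mat_level {m n : ℕ} (hm : 6 ≤ m) (dg tw : ℕ → ℝ) (w : ℝ) (q : ℕ)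
    (hq : 2 * (q - n) ≤ m) (x : Fin m ⊕ Fin n) :
    ∑ y, mat m n dg tw w x y * (if ps m n y = q then 1 else 0) =
      if ps m n x = q then dg q + (if 2 * (q - n) + 1 = m then w else 0)
      else if ps m n x + 1 = q then lc n tw q
      else if ps m n x = q + 1 then rc n m tw q else 0 := by
  have hm0 : 0 < m := by omega
  -- reduce to the main representative
  have red : ∑ y, mat m n dg tw w x y * (if ps m n y = q then 1 else 0) =
      ∑ y, mat m n dg tw w (vx m n hm0 (ps m n x)) y * (if ps m n y = q then 1 else 0) := by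
    rcases vx_or hm0 x with h | h
    · rw [← h]
    · conv_lhs => rw [h]
      rw [← Equiv.sum_comp (Function.Involutive.toPerm _ (rf_rf m n))]
      refine Finset.sum_congr rfl fun y _ => ?_
      change mat m n dg tw w (rf m n (vx m n hm0 (ps m n x))) (rf m n y) *
        (if ps m n (rf m n y) = q then 1 else 0) = _
      rw [ps_rf, mat_rf (by omega)]
  rw [red, level_sum hm0 _ q hq]
  set p := ps m n x with hp
  have hpl : 2 * (p - n) ≤ m := ps_le x
  have pp := ps_vx hm0 hpl
  have pq := ps_vx hm0 hq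
  have e1 : mat m n dg tw w (vx m n hm0 p) (vx m n hm0 q) =
      if p = q then dg q else if p + 1 = q ∨ q + 1 = p then tw (max p q) else 0 := by
    unfold mat
    rw [pp, pq]
    by_cases h : p = q
    · rw [if_pos (by rw [h]), if_pos h, h]
    · rw [if_neg h, if_neg (fun h' => h (by rw [← pp, ← pq, h'])), if_neg h]
      by_cases h' : p + 1 = q ∨ q + 1 = p
      · rw [if_pos h', if_pos ((adj_vx (by omega) hm0 hpl hq (by omega)).2 h')]
      · rw [if_neg h', if_neg (fun h'' => h' ((adj_vx (by omega) hm0 hpl hq (by omega)).1 h''))]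
  rw [e1]
  by_cases hc : q ≤ n ∨ 2 * (q - n) = m
  · rw [if_pos (rf_vx_eq hm0 hq hc), add_zero]
    unfold lc rc
    by_cases h1 : p = q
    · rw [if_pos h1, if_pos h1, if_neg (by omega), add_zero]
    rw [if_neg h1, if_neg h1]
    by_cases h2 : p + 1 = q
    · rw [if_pos (Or.inl h2), if_pos h2, if_neg (by omega), mul_one, show max p q = q by omega]
    rw [if_neg h2]
    by_cases h3 : p = q + 1
    · rw [if_pos (Or.inr h3.symm), if_pos h3, if_neg (by omega), mul_one,
        show max p q = q + 1 by omega]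
    · rw [if_neg (by omega), if_neg h3]
  · have hq1 : 2 * (q - n) < m := by omega
    have hq2 : n < q := by omega
    rw [if_neg (rf_vx_ne hm0 hq1 hq2)]
    have e2 : mat m n dg tw w (vx m n hm0 p) (rf m n (vx m n hm0 q)) =
        if (p = n ∧ q = n + 1) ∨ (2 * (p - n) = m ∧ q + 1 = p) ∨ (2 * (p - n) + 1 = m ∧ q = p) then
          (if p = q then w else tw (max p q)) else 0 := by
      unfold mat
      rw [pp, ps_rf, pq]
      rw [if_neg (fun h' => by
        have h3 : p = q := by rw [← pp, ← pq, h', ps_rf]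
        rw [h3] at h'
        exact rf_vx_ne hm0 hq1 hq2 h'.symm)]
      by_cases h' : (p = n ∧ q = n + 1) ∨ (2 * (p - n) = m ∧ q + 1 = p) ∨
          (2 * (p - n) + 1 = m ∧ q = p)
      · rw [if_pos h', if_pos ((adj_vx' (by omega) hm0 hpl hq1 hq2 (by omega)).2 h')]
      · rw [if_neg h', if_neg
          (fun h'' => h' ((adj_vx' (by omega) hm0 hpl hq1 hq2 (by omega)).1 h''))]
    rw [e2]
    unfold lc rc
    by_cases h1 : p = q
    · rw [if_pos h1, if_pos h1, if_pos h1]
      by_cases h2 : 2 * (q - n) + 1 = m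
      · rw [if_pos h2, if_pos (by omega)]
      · rw [if_neg h2, if_neg (by omega)]
    rw [if_neg h1, if_neg h1, if_neg h1]
    by_cases h2 : p + 1 = q
    · rw [if_pos (Or.inl h2), if_pos h2, show max p q = q by omega]
      by_cases h4 : q = n + 1
      · rw [if_pos (by omega), if_pos h4]; ring
      · rw [if_neg (by omega), if_neg h4]; ring
    rw [if_neg h2]
    by_cases h3 : p = q + 1
    · rw [if_pos (Or.inr h3.symm), if_pos h3, show max p q = q + 1 by omega]
      by_cases h4 : 2 * (q + 1 - n) = m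
      · rw [if_pos (by omega), if_pos h4]; ring
      · rw [if_neg (by omega), if_neg h4]; ring
    · rw [if_neg (by omega), if_neg h3, if_neg (by omega), add_zero]

/-- **The geometry of the tadpole matrix.** -/
theorem geo {m n t : ℕ} (hm : 2 * (t + 3) = m ∨ 2 * (t + 3) + 1 = m) {α γ dg tw : ℕ → ℝ} {w : ℝ}
    (htw : ∀ q, tw q ≠ 0)
    (hdg : ∀ q, q ≤ n + t + 3 → dg q + (if 2 * (q - n) + 1 = m then w else 0) = α q)
    (hγ : ∀ q, q + 1 ≤ n + t + 3 → lc n tw (q + 1) * rc n m tw q = γ (q + 1)) :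
    Geo (mat m n dg tw w) (ps m n) (Function.Involutive.toPerm _ (rf_rf m n)) n t α γ
      (fun q => ∏ i ∈ range q, rc n m tw i) := by
  have hm6 : 6 ≤ m := by omega
  have hm0 : 0 < m := by omega
  have rcne : ∀ q, rc n m tw q ≠ 0 := by
    intro q
    unfold rc
    split_ifs
    · exact mul_ne_zero (htw _) two_ne_zero
    · rw [mul_one]; exact htw _
  set ω : ℕ → ℝ := fun q => ∏ i ∈ range q, rc n m tw i with hω
  have ω0 : ω 0 = 1 := by rw [hω]; simp
  have ωs : ∀ q, ω (q + 1) = ω q * rc n m tw q := by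
    intro q; rw [hω]; simp only; rw [prod_range_succ]
  have act : ∀ q, q ≤ n + t + 3 → ∀ a : ℝ, ∀ x,
      ac (mat m n dg tw w) (X - C a) (gv (ps m n) ω q) x = ω q * (if ps m n x = q then α q
      else if ps m n x + 1 = q then lc n tw q
      else if ps m n x = q + 1 then rc n m tw q else 0) - a * (if ps m n x = q then ω q else 0) := by
    intro q hq a x
    rw [ac_subl, ac_X, ac_C, Pi.sub_apply, Pi.smul_apply, smul_eq_mul]
    congr 1
    have e := mat_level hm6 dg tw w q (by omega) x
    rw [hdg q hq] at e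
    rw [← e, Finset.mul_sum]
    unfold Matrix.mulVec dotProduct
    refine Finset.sum_congr rfl fun y _ => ?_
    unfold gv
    by_cases h : ps m n y = q
    · rw [if_pos h, if_pos h]; ring
    · rw [if_neg h, if_neg h]; ring
  have gvx : ∀ q x, gv (ps m n) ω q x = if ps m n x = q then ω q else 0 := fun _ _ => rfl
  have pl : ∀ x, ps m n x ≤ n + t + 3 := by
    intro x
    have := ps_le x
    omega
  refine ⟨mat_symm _ _ _ _ _, rf_rf m n, ps_rf m n, fun x y => mat_rf (by omega) _ _ _ x y,
    fun x y h => hP_aux hm0 x y h, ?_, ?_, ?_, ?_, ?_, ?_⟩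
  · intro x hx
    change rf m n x = x
    rcases vx_or hm0 x with h | h
    · rw [h, rf_vx_eq hm0 (by omega) (Or.inl hx)]
    · rw [h, rf_rf, rf_vx_eq hm0 (by omega) (Or.inl hx)]
  · intro x y hxy
    by_cases h : x = y
    · rw [h]; omega
    · have hadj : (tadpole m n).Adj x y := by
        by_contra h'
        apply hxy
        unfold mat
        rw [if_neg h, if_neg h']
      have := adj_ps (by omega) x y hadj
      omega
  · intro q
    exact prod_ne_zero_iff.2 fun i _ => rcne i
  · ext x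
    rw [act 0 (by omega) (α 0) x, gvx]
    by_cases h0 : ps m n x = 0
    · have h1 : ¬ ps m n x = 1 := by omega
      rw [if_pos h0, if_pos h0, if_neg h1, ω0]; ring
    · have h3 : ¬ ps m n x + 1 = 0 := by omega
      rw [if_neg h0, if_neg h0, if_neg h3, zero_add]
      by_cases h1 : ps m n x = 1
      · rw [if_pos h1, if_pos h1]
        have := ωs 0
        rw [zero_add] at this
        rw [this]; ring
      · rw [if_neg h1, if_neg h1]; ring
  · intro q hq
    ext x
    rw [Pi.sub_apply, Pi.smul_apply, smul_eq_mul, act (q + 1) (by omega) (α (q + 1)) x]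
    unfold gv
    have e1 := hγ q (by omega)
    have e2 := ωs q
    have e3 := ωs (q + 1)
    by_cases h0 : ps m n x = q + 2
    · rw [if_pos h0, if_neg (by omega), if_neg (by omega), if_pos h0, if_neg (by omega),
        if_neg (by omega), e3]
      ring
    · rw [if_neg h0]
      by_cases h1 : ps m n x = q + 1
      · rw [if_pos h1, if_pos h1, if_neg (by omega)]; ring
      · rw [if_neg h1, if_neg h1]
        by_cases h2 : ps m n x = q
        · rw [if_pos (by omega), if_pos h2, e2, ← e1]; ring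
        · rw [if_neg (by omega), if_neg h0, if_neg h2]; ring
  · ext x
    rw [Pi.smul_apply, smul_eq_mul, act (n + t + 3) le_rfl (α (n + t + 3)) x]
    unfold gv
    have e1 := hγ (n + t + 2) (by omega)
    have e2 := ωs (n + t + 2)
    rw [show n + t + 2 + 1 = n + t + 3 by omega] at e1 e2
    have := pl x
    by_cases h1 : ps m n x = n + t + 3
    · rw [if_pos h1, if_pos h1, if_neg (by omega)]; ring
    · rw [if_neg h1, if_neg h1]
      by_cases h2 : ps m n x = n + t + 2
      · rw [if_pos (by omega), if_pos h2, e2, ← e1]; ring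
      · rw [if_neg (by omega), if_neg (by omega), if_neg h2]; ring

end Pool.Agent.L5helper38.Tad
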