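import Pool.Agent.L5helper38.TadCore

/-! # The commuting matrix on the tadpole -/

set_option autoImplicit false

open Polynomial Finset

namespace Pool.Agent.L5helper38.Tad

/-- the level vectors -/
def gv {V : Type} (pos : V → ℕ) (ω : ℕ → ℝ) (q : ℕ) : V → ℝ := fun x => if pos x = q then ω q else 0

/-- the hypotheses on the matrix -/
structure Geo {V : Type} [Fintype V] [DecidableEq V] (A : Matrix V V ℝ) (pos : V → ℕ) (r : V ≃ V)
    (n t : ℕ) (α γ ω : ℕ → ℝ) : Prop where
  hs : A.IsSymm
  hr : ∀ x, r (r x) = x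
  hpr : ∀ x, pos (r x) = pos x
  hAr : ∀ x y, A (r x) (r y) = A x y
  hP : ∀ x y, pos y = pos x → y = x ∨ y = r x
  hfix : ∀ x, pos x ≤ n → r x = x
  hB : ∀ x y, A x y ≠ 0 → pos x ≤ pos y + 1
  hω : ∀ q, ω q ≠ 0
  h0 : gv pos ω 1 = ac A (X - C (α 0)) (gv pos ω 0)
  h1 : ∀ q, q + 2 ≤ n + t + 3 → gv pos ω (q + 2) =
    ac A (X - C (α (q + 1))) (gv pos ω (q + 1)) - γ (q + 1) • gv pos ω q
  h2 : ac A (X - C (α (n + t + 3))) (gv pos ω (n + t + 3)) =
    γ (n + t + 3) • gv pos ω (n + t + 2)

theorem Geo.hB' {V : Type} [Fintype V] [DecidableEq V] {A : Matrix V V ℝ} {pos : V → ℕ} {r : V ≃ V}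
    {n t : ℕ} {α γ ω : ℕ → ℝ} (G : Geo A pos r n t α γ ω) :
    ∀ x y, A x y ≠ 0 → pos y ≤ pos x + 1 := by
  intro x y h
  refine G.hB y x ?_
  rw [G.hs.apply]
  exact h

theorem core {V : Type} [Fintype V] [DecidableEq V] {A : Matrix V V ℝ} {pos : V → ℕ} {r : V ≃ V}
    {n t : ℕ} {α γ ω : ℕ → ℝ} (G : Geo A pos r n t α γ ω) (hn : n ≤ t + 1)
    (H θ Q1 : ℝ[X]) (κ : ℝ) (hH : H.natDegree = t + 1 - n)
    (hE : chi α γ 0 n * H = chi α γ (n + 1) (t + 1))
    (hQ1 : Q1.natDegree = 0) (hQ2 : (rec3 α γ n (-θ) Q1 2).natDegree = 0)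
    (z1 : κ • ac A (chi α γ 0 (n + 1) * H) (gv pos ω (n + t + 3)) - ac A θ (gv pos ω (n + 1)) =
      ac A (C (κ * γ (n + 1)) * chi α γ (n + 2) t) (gv pos ω (n + t + 3)) +
        ac A Q1 (gv pos ω n)) :
    ∃ Xm : Matrix V V ℝ, Xm.IsSymm ∧ A * Xm = Xm * A ∧
      (∀ i j, pos j ≤ n → pos i ≤ n + 1 → Xm i j = 0) ∧
      (∀ i j, n + 1 ≤ pos j → pos j ≤ n + t + 2 → pos j ≤ pos i → pos i ≤ pos j + 1 →
        Xm i j = (aeval A θ) i (r j)) ∧
      (∀ i j, pos j = n + t + 3 → pos i = n + t + 3 →
        Xm i j = -(κ * ∏ i ∈ range (t + 2), γ (n + 1 + i)) * (if r j = j then 1 else 1 / 2) +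
          (aeval A θ) i (r j)) := by
  set g := gv pos ω with hg
  set L := n + t + 3 with hL
  set y := C κ * (H * chi α γ 0 L) with hy
  have fw : ∀ q, q ≤ L → ac A (chi α γ 0 q) (g 0) = g q := chain_fw (L := L) G.h0 G.h1
  have yg : ∀ q, q ≤ L → ac A y (g q) = κ • ac A (chi α γ 0 q * H) (g L) := by
    intro q hq
    rw [hy, ac_Cmul, ac_mul, ← fw q hq, ac_comm A (chi α γ 0 L), fw L le_rfl, ← ac_mul,
      mul_comm H]
  set P0 := C κ * chi α γ (n + 1) (t + 1) with hP0
  set P1 := C (κ * γ (n + 1)) * chi α γ (n + 2) t with hP1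
  have z0' : ac A (y - θ) (g n) = ac A P0 (g L) + ac A (-θ) (g n) := by
    rw [ac_subl, yg n (by omega), hE, hP0, ac_Cmul, ac_negl, sub_eq_add_neg]
  have z1' : ac A (y - θ) (g (n + 1)) = ac A P1 (g L) + ac A Q1 (g n) := by
    rw [ac_subl, yg (n + 1) (by omega)]
    exact z1
  have Z : ∀ j, n + j ≤ L → ac A (y - θ) (g (n + j)) =
      ac A (rec3 α γ n P0 P1 j) (g L) + ac A (rec3 α γ n (-θ) Q1 j) (g n) :=
    chain_Z (L := L) G.h1 z0' z1'
  have gz : ∀ q x, pos x ≠ q → g q x = 0 := by
    intro q x h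
    rw [hg, gv, if_neg h]
  have gp : ∀ q x, pos x = q → g q x = ω q := by
    intro q x h
    rw [hg, gv, if_pos h]
  -- the low part
  have low : ∀ q, q ≤ n → ∀ x, pos x ≤ n + 1 → ac A y (g q) x = 0 := by
    intro q hq x hx
    rw [yg q (by omega), Pi.smul_apply]
    have hd : (chi α γ 0 q * H).natDegree ≤ q + (t + 1 - n) := by
      refine natDegree_mul_le.trans ?_
      rw [chi_deg, hH]
    rw [lo_ac G.hB' (g L) (chi α γ 0 q * H) (q + (t + 1 - n)) (n + 2) hd
      (fun z hz => gz L z (by omega)) x (by omega), smul_zero]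
  -- the middle part
  have Wup : ∀ j, 1 ≤ j → n + j ≤ L → ∀ x, n + j ≤ pos x + 1 → n + 1 ≤ pos x →
      ac A (rec3 α γ n (-θ) Q1 j) (g n) x = 0 := by
    intro j hj hjL x hx hx1
    rcases Nat.lt_or_ge j 2 with h | h
    · have : j = 1 := by omega
      subst this
      rw [rec3_one]
      exact up_ac G.hB (g n) Q1 0 n hQ1.le (fun z hz => gz n z (by omega)) x (by omega)
    · obtain ⟨j', rfl⟩ : ∃ j', j = j' + 2 := ⟨j - 2, by omega⟩
      exact up_ac G.hB (g n) _ j' n (rec3_W α γ n _ _ hQ1 hQ2 j')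
        (fun z hz => gz n z (by omega)) x (by omega)
  have mid : ∀ j, 1 ≤ j → j ≤ t + 2 → ∀ x, n + j ≤ pos x → pos x ≤ n + j + 1 →
      ac A (y - θ) (g (n + j)) x = 0 := by
    intro j hj hjt x h1 h2
    rw [Z j (by omega), Pi.add_apply, Wup j hj (by omega) x (by omega) (by omega), add_zero]
    rcases Nat.lt_or_ge j (t + 2) with h | h
    · rw [hP0, hP1, rec3_V α γ n t κ j (t + 1 - j) (by omega)]
      refine lo_ac G.hB' (g L) _ (t + 1 - j) (n + j + 2) ?_ (fun z hz => gz L z (by omega)) x
        (by omega)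
      exact (natDegree_C_mul_le _ _).trans (chi_deg _ _ _ _).le
    · have : j = t + 2 := by omega
      subst this
      rw [hP0, hP1, rec3_V2, ac_zero]
      rfl
  have top : ∀ x, pos x = L → ac A (y - θ) (g L) x =
      -(κ * ∏ i ∈ range (t + 2), γ (n + 1 + i)) * ω L := by
    intro x hx
    have e := Z (t + 3) (by omega)
    rw [show n + (t + 3) = L by omega] at e
    rw [e, Pi.add_apply, Wup (t + 3) (by omega) (by omega) x (by omega) (by omega), add_zero,
      hP0, hP1, rec3_V3, ← map_neg, ac_C, Pi.smul_apply, gp L x hx, smul_eq_mul]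
  -- the matrix
  set Y := aeval A y with hY
  set T := aeval A θ with hT
  have Yinv := aeval_inv G.hAr y
  have Tinv := aeval_inv G.hAr θ
  have Ysym := aeval_symm G.hs y
  have Tsym := aeval_symm G.hs θ
  rw [← hY] at Yinv Ysym
  rw [← hT] at Tinv Tsym
  have Yr : ∀ i j, Y (r i) j = Y i (r j) := by
    intro i j
    have := Yinv i (r j)
    rwa [G.hr] at this
  have Tr : ∀ i j, T (r i) j = T i (r j) := by
    intro i j
    have := Tinv i (r j)
    rwa [G.hr] at this
  set Xm : Matrix V V ℝ := fun i j => (Y i j + Y i (r j)) / 2 - (T i j - T i (r j)) / 2 with hXm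
  -- the columns
  have col : ∀ i j, (if r j = j then (2 : ℝ) else 1) * ac A (y - θ) (g (pos j)) i =
      ω (pos j) * (Y i j + Y i (r j) - (T i j + T i (r j))) := by
    intro i j
    have e1 : (if r j = j then (2 : ℝ) else 1) • g (pos j) =
        ω (pos j) • (Pi.single j 1 + Pi.single (r j) 1 : V → ℝ) := by
      ext z
      simp only [Pi.smul_apply, Pi.add_apply, smul_eq_mul]
      by_cases hz : pos z = pos j
      · rw [gp _ _ hz]
        rcases G.hP j z hz with h | h
        · subst h
          rw [Pi.single_eq_same]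
          by_cases h' : r z = z
          · rw [if_pos h', h', Pi.single_eq_same]; ring
          · rw [if_neg h', Pi.single_eq_of_ne (Ne.symm h')]; ring
        · subst h
          by_cases h' : r j = j
          · rw [if_pos h', h', Pi.single_eq_same]; ring
          · rw [if_neg h', Pi.single_eq_same, Pi.single_eq_of_ne h']; ring
      · rw [gz _ _ hz, Pi.single_eq_of_ne (by rintro rfl; exact hz rfl),
          Pi.single_eq_of_ne (by rintro rfl; exact hz (G.hpr j))]
        ring
    have e2 := congrFun (congrArg (ac A (y - θ)) e1) i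
    rw [ac_smul, ac_smul, Pi.smul_apply, Pi.smul_apply, smul_eq_mul, smul_eq_mul] at e2
    rw [e2, ac_addr]
    congr 1
    unfold ac
    rw [Pi.add_apply, Matrix.mulVec_single_one, Matrix.mulVec_single_one, map_sub, ← hY, ← hT]
    simp only [Matrix.col_apply, Matrix.sub_apply]
    ring
  refine ⟨Xm, ?_, ?_, ?_, ?_, ?_⟩
  · ext i j
    rw [Matrix.transpose_apply, hXm]
    simp only
    rw [Ysym.apply i j, Tsym.apply i j, (Ysym.apply (r i) j).trans (Yr i j),
      (Tsym.apply (r i) j).trans (Tr i j)]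
  · have cY : A * Y = Y * A := by
      have := (Commute.all (X : ℝ[X]) y).map (aeval A)
      rw [aeval_X] at this
      exact this
    have cT : A * T = T * A := by
      have := (Commute.all (X : ℝ[X]) θ).map (aeval A)
      rw [aeval_X] at this
      exact this
    have gen : ∀ M : Matrix V V ℝ, A * M = M * A →
        A * M.submatrix id r = M.submatrix id r * A := by
      intro M hM
      have hA : A.submatrix r r = A := by ext x z; exact G.hAr x z
      have e1 : A * M.submatrix id r = (A * M).submatrix id r := by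
        ext i j
        simp [Matrix.mul_apply]
      have e2 : M.submatrix id r * A = (M * A).submatrix id r := by
        conv_lhs => rw [← hA]
        rw [Matrix.submatrix_mul_equiv]
      rw [e1, e2, hM]
    have e : Xm = (1 / 2 : ℝ) • (Y + Y.submatrix id r) - (1 / 2 : ℝ) • (T - T.submatrix id r) := by
      ext i j
      rw [hXm]
      simp only [Matrix.sub_apply, Matrix.smul_apply, Matrix.add_apply, Matrix.submatrix_apply,
        id, smul_eq_mul]
      ring
    rw [e]
    simp only [mul_sub, sub_mul, mul_add, add_mul, Matrix.mul_smul, Matrix.smul_mul, cY, cT,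
      gen Y cY, gen T cT]
  · intro i j hj hi
    have hrj := G.hfix j hj
    have h1 := low (pos j) hj i hi
    have h2 := col i j
    rw [if_pos hrj, hrj, ac_subl, Pi.sub_apply, h1] at h2
    -- separate the two parts
    have e1 : g (pos j) = ω (pos j) • (Pi.single j 1 : V → ℝ) := by
      ext z
      simp only [Pi.smul_apply, smul_eq_mul]
      by_cases hz : pos z = pos j
      · rw [gp _ _ hz]
        have : z = j := by
          rcases G.hP j z hz with h | h
          · exact h
          · rw [h, hrj]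
        rw [this, Pi.single_eq_same, mul_one]
      · rw [gz _ _ hz, Pi.single_eq_of_ne (by rintro rfl; exact hz rfl), mul_zero]
    have e2 : ac A y (g (pos j)) i = ω (pos j) * Y i j := by
      rw [e1, ac_smul, Pi.smul_apply, smul_eq_mul]
      congr 1
      unfold ac
      rw [Matrix.mulVec_single_one, Matrix.col_apply]
    rw [e2] at h1
    have e3 : Y i j = 0 := (mul_eq_zero.1 h1).resolve_left (G.hω _)
    rw [hXm]
    simp only
    rw [hrj, e3]
    ring
  · intro i j h1 h2 h3 h4
    have e0 := mid (pos j - n) (by omega) (by omega) i (by omega) (by omega)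
    rw [show n + (pos j - n) = pos j by omega] at e0
    have e1 := col i j
    rw [e0, mul_zero] at e1
    have e2 := (mul_eq_zero.1 e1.symm).resolve_left (G.hω _)
    rw [hXm]
    simp only
    linarith
  · intro i j h1 h2
    have e1 := col i j
    rw [h1, top i h2] at e1
    have e2 := G.hω L
    rw [hXm]
    simp only
    have e3 : Y i j + Y i (r j) - (T i j + T i (r j)) =
        (if r j = j then (2 : ℝ) else 1) * -(κ * ∏ i ∈ range (t + 2), γ (n + 1 + i)) := by
      refine mul_left_cancel₀ e2 ?_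
      rw [← e1]
      ring
    by_cases h : r j = j
    · rw [if_pos h] at e3 ⊢
      linarith
    · rw [if_neg h] at e3 ⊢
      linarith

end Pool.Agent.L5helper38.Tad
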