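import Mathlib

/-! # Jacobi continuants and the inverse spectral lemma -/

set_option autoImplicit false

open Polynomial Finset

namespace Pool.Agent.L5helper38.Tad

/-- characteristic polynomial of the block of length `t` starting at `i` of the Jacobi matrix with
diagonal `α` and squared couplings `γ` (`γ q` couples `q-1` and `q`) -/
noncomputable def chi (α γ : ℕ → ℝ) (i : ℕ) : ℕ → ℝ[X]
  | 0 => 1
  | 1 => X - C (α i)
  | (t + 2) => (X - C (α (i + t + 1))) * chi α γ i (t + 1) - C (γ (i + t + 1)) * chi α γ i t

theorem chi_zero (α γ : ℕ → ℝ) (i : ℕ) : chi α γ i 0 = 1 := by rw [chi]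

theorem chi_one (α γ : ℕ → ℝ) (i : ℕ) : chi α γ i 1 = X - C (α i) := by rw [chi]

theorem chi_succ (α γ : ℕ → ℝ) (i t : ℕ) : chi α γ i (t + 2) =
    (X - C (α (i + t + 1))) * chi α γ i (t + 1) - C (γ (i + t + 1)) * chi α γ i t := by
  rw [chi]

theorem chi_congr {α γ α' γ' : ℕ → ℝ} (i : ℕ) : ∀ t : ℕ,
    (∀ j, i ≤ j → j < i + t → α j = α' j) → (∀ j, i < j → j < i + t → γ j = γ' j) →
    chi α γ i t = chi α' γ' i t := by
  intro t
  induction t using Nat.strong_induction_on with
  | _ t ih =>
    intro h1 h2
    match t with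
    | 0 => rw [chi_zero, chi_zero]
    | 1 => rw [chi_one, chi_one, h1 i le_rfl (by omega)]
    | (t + 2) =>
      rw [chi_succ, chi_succ, h1 _ (by omega) (by omega), h2 _ (by omega) (by omega),
        ih (t + 1) (by omega) (fun j a b => h1 j a (by omega)) (fun j a b => h2 j a (by omega)),
        ih t (by omega) (fun j a b => h1 j a (by omega)) (fun j a b => h2 j a (by omega))]

/-- shifting the block -/
theorem chi_shift (α γ : ℕ → ℝ) (s i : ℕ) : ∀ t : ℕ,
    chi (fun j => α (j + s)) (fun j => γ (j + s)) i t = chi α γ (i + s) t := by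
  intro t
  induction t using Nat.strong_induction_on with
  | _ t ih =>
    match t with
    | 0 => rw [chi_zero, chi_zero]
    | 1 => rw [chi_one, chi_one]
    | (t + 2) =>
      rw [chi_succ, chi_succ, ih (t + 1) (by omega), ih t (by omega)]
      rw [show i + t + 1 + s = i + s + t + 1 by omega]

theorem chi_back (α γ : ℕ → ℝ) (i : ℕ) : ∀ t : ℕ, chi α γ i (t + 2) =
    (X - C (α i)) * chi α γ (i + 1) (t + 1) - C (γ (i + 1)) * chi α γ (i + 2) t := by
  intro t
  induction t using Nat.strong_induction_on with
  | _ t ih =>
    match t with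
    | 0 =>
      rw [chi_succ, zero_add, chi_one, chi_one, chi_zero, chi_zero]
      ring
    | 1 =>
      have e1 : chi α γ i (1 + 2) = (X - C (α (i + 1 + 1))) * chi α γ i (0 + 2) -
          C (γ (i + 1 + 1)) * chi α γ i 1 := chi_succ _ _ _ _
      have e2 : chi α γ (i + 1) (1 + 1) = (X - C (α (i + 1 + 0 + 1))) * chi α γ (i + 1) (0 + 1) -
          C (γ (i + 1 + 0 + 1)) * chi α γ (i + 1) 0 := chi_succ _ _ _ _
      rw [e1, e2, ih 0 (by omega), zero_add, chi_one, chi_one, chi_one, chi_zero, chi_zero]
      rw [show i + 1 + 1 = i + 2 by omega, show i + 1 + 0 + 1 = i + 2 by omega]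
      ring
    | (t + 2) =>
      rw [chi_succ, ih (t + 1) (by omega), ih t (by omega), chi_succ (i := i + 1) (t := t + 1),
        chi_succ (i := i + 2) (t := t)]
      rw [show i + (t + 2) + 1 = i + t + 3 by omega, show i + 1 + (t + 1) + 1 = i + t + 3 by omega,
        show i + 2 + t + 1 = i + t + 3 by omega]
      ring

theorem chi_wronskian (α γ : ℕ → ℝ) (i : ℕ) : ∀ t : ℕ,
    chi α γ (i + 1) (t + 1) * chi α γ i (t + 1) - chi α γ i (t + 2) * chi α γ (i + 1) t =
      C (∏ j ∈ range (t + 1), γ (i + j + 1)) := by
  intro t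
  induction t with
  | zero =>
    rw [chi_succ, zero_add, chi_one, chi_one, chi_zero, chi_zero]
    simp only [range_one, prod_singleton, add_zero]
    ring
  | succ t ih =>
    rw [prod_range_succ, map_mul, ← ih, chi_succ (i := i + 1) (t := t),
      chi_succ (i := i) (t := t + 1)]
    rw [show i + 1 + t + 1 = i + t + 2 by omega, show i + (t + 1) + 1 = i + t + 2 by omega]
    ring

theorem chi_monic_deg (α γ : ℕ → ℝ) (i : ℕ) : ∀ t : ℕ,
    (chi α γ i t).Monic ∧ (chi α γ i t).natDegree = t := by
  intro t
  induction t using Nat.strong_induction_on with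
  | _ t ih =>
    match t with
    | 0 => rw [chi_zero]; exact ⟨monic_one, natDegree_one⟩
    | 1 => rw [chi_one]; exact ⟨monic_X_sub_C _, natDegree_X_sub_C _⟩
    | (t + 2) =>
      obtain ⟨m1, d1⟩ := ih (t + 1) (by omega)
      obtain ⟨m2, d2⟩ := ih t (by omega)
      have m3 : ((X - C (α (i + t + 1))) * chi α γ i (t + 1)).Monic := (monic_X_sub_C _).mul m1
      have d3 : ((X - C (α (i + t + 1))) * chi α γ i (t + 1)).natDegree = t + 2 := by
        rw [(monic_X_sub_C _).natDegree_mul m1, natDegree_X_sub_C, d1]; omega
      have d4 : (C (γ (i + t + 1)) * chi α γ i t).natDegree ≤ t := by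
        refine (natDegree_C_mul_le _ _).trans ?_
        rw [d2]
      rw [chi_succ]
      refine ⟨m3.sub_of_left ?_, ?_⟩
      · rw [degree_eq_natDegree m3.ne_zero, d3]
        refine lt_of_le_of_lt degree_le_natDegree ?_
        exact_mod_cast lt_of_le_of_lt d4 (by omega)
      · rw [natDegree_sub_eq_left_of_natDegree_lt (by omega), d3]

theorem chi_monic (α γ : ℕ → ℝ) (i t : ℕ) : (chi α γ i t).Monic := (chi_monic_deg α γ i t).1

theorem chi_deg (α γ : ℕ → ℝ) (i t : ℕ) : (chi α γ i t).natDegree = t := (chi_monic_deg α γ i t).2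

/-- the sign of a product of differences -/
theorem sign_prod (x : ℕ → ℝ) (t : ℝ) : ∀ N s : ℕ, s ≤ N → (∀ i, i < s → x i < t) →
    (∀ i, s ≤ i → i < N → t < x i) → 0 < (-1) ^ (N - s) * ∏ i ∈ range N, (t - x i) := by
  intro N
  induction N with
  | zero =>
    intro s hs _ _
    have : s = 0 := by omega
    subst this
    simp
  | succ N ih =>
    intro s hs h1 h2
    rw [prod_range_succ]
    rcases Nat.lt_or_ge N s with h | h
    · have e : s = N + 1 := by omega
      subst e
      have h3 : 0 < ∏ i ∈ range N, (t - x i) :=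
        prod_pos fun i hi => sub_pos.2 (h1 i (by have := mem_range.1 hi; omega))
      have h4 := sub_pos.2 (h1 N (by omega))
      simp only [Nat.sub_self, pow_zero, one_mul]
      positivity
    · have h3 := ih s h h1 (fun i a b => h2 i a (by omega))
      have h4 := sub_pos.2 (h2 N h (by omega))
      rw [show N + 1 - s = (N - s) + 1 by omega, pow_succ]
      have : (-1 : ℝ) ^ (N - s) * -1 * ((∏ i ∈ range N, (t - x i)) * (t - x N)) =
          ((-1) ^ (N - s) * ∏ i ∈ range N, (t - x i)) * (x N - t) := by ring
      rw [this]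
      positivity

/-- the monic polynomial with the given roots -/
noncomputable def rp (y : ℕ → ℝ) (d : ℕ) : ℝ[X] := ∏ i ∈ range d, (X - C (y i))

theorem rp_monic (y : ℕ → ℝ) (d : ℕ) : (rp y d).Monic :=
  monic_prod_of_monic _ _ fun _ _ => monic_X_sub_C _

theorem rp_deg (y : ℕ → ℝ) (d : ℕ) : (rp y d).natDegree = d := by
  unfold rp
  rw [natDegree_prod_of_monic _ _ fun i _ => monic_X_sub_C _]
  simp

theorem rp_eval (y : ℕ → ℝ) (d : ℕ) (t : ℝ) : (rp y d).eval t = ∏ i ∈ range d, (t - y i) := by
  unfold rp
  rw [eval_prod]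
  simp

theorem rp_root (y : ℕ → ℝ) (d i : ℕ) (h : i < d) : (rp y d).eval (y i) = 0 := by
  rw [rp_eval]
  exact prod_eq_zero (mem_range.2 h) (sub_self _)

/-- a polynomial of degree less than `d` vanishing at `d` distinct points is zero -/
theorem eq_zero_of_roots {p : ℝ[X]} {d : ℕ} {x : ℕ → ℝ} (hd : p.natDegree < d)
    (hx : ∀ i j, i < j → j < d → x i < x j) (h : ∀ i, i < d → p.eval (x i) = 0) : p = 0 := by
  have inj : Function.Injective fun i : Fin d => x i.1 := by
    intro i j hij
    rcases lt_trichotomy i.1 j.1 with h1 | h1 | h1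
    · exact absurd hij (hx _ _ h1 j.2).ne
    · exact Fin.ext h1
    · exact absurd hij (hx _ _ h1 i.2).ne'
  exact Polynomial.eq_zero_of_natDegree_lt_card_of_eval_eq_zero p inj
    (fun i => h i.1 i.2) (by simpa using hd)

/-- intermediate value for polynomials with opposite signs -/
theorem ivt_poly (p : ℝ[X]) {u v : ℝ} (h : u < v) (s : p.eval u * p.eval v < 0) :
    ∃ z, u < z ∧ z < v ∧ p.eval z = 0 := by
  have hc : ContinuousOn (fun t => p.eval t) (Set.Icc u v) := p.continuous.continuousOn
  rcases mul_neg_iff.1 s with ⟨h1, h2⟩ | ⟨h1, h2⟩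
  · obtain ⟨z, hz, e⟩ := intermediate_value_Ioo' h.le hc ⟨h2, h1⟩
    exact ⟨z, hz.1, hz.2, e⟩
  · obtain ⟨z, hz, e⟩ := intermediate_value_Ioo h.le hc ⟨h1, h2⟩
    exact ⟨z, hz.1, hz.2, e⟩

/-- **inverse spectral lemma.** A monic `f` of degree `d+1` whose signs alternate on `y 0 < … <
y (d-1)` and `∏ (X - y i)` are consecutive continuants of a Jacobi matrix. -/
theorem realize : ∀ (d : ℕ) (f : ℝ[X]) (y : ℕ → ℝ), f.Monic → f.natDegree = d + 1 →
    (∀ i j, i < j → j < d → y i < y j) → (∀ j, j < d → 0 < (-1) ^ (d - j) * f.eval (y j)) →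
    ∃ α γ : ℕ → ℝ, (∀ i, 0 < γ i) ∧ chi α γ 0 (d + 1) = f ∧ chi α γ 0 d = rp y d := by
  intro d
  induction d with
  | zero =>
    intro f y hf hd _ _
    refine ⟨fun _ => -f.coeff 0, fun _ => 1, fun _ => one_pos, ?_, ?_⟩
    · rw [zero_add, chi_one]
      have h1 := hf.as_sum
      rw [hd] at h1
      simp at h1
      rw [h1]
      simp
    · rw [chi_zero]; simp [rp]
  | succ d ih =>
    intro f y hf hd hy hs
    -- f = (X - a) g - h
    set g := rp y (d + 1) with hg
    have gm := rp_monic y (d + 1)
    have gd := rp_deg y (d + 1)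
    obtain ⟨a, ha⟩ : ∃ a : ℝ, ((X - C a) * g - f).natDegree < d + 1 := by
      -- choose `a` to kill the coefficient of degree d+1
      refine ⟨g.coeff d - f.coeff (d + 1), ?_⟩
      set a := g.coeff d - f.coeff (d + 1) with hadef
      have m1 : ((X - C a) * g).Monic := (monic_X_sub_C a).mul gm
      have d1 : ((X - C a) * g).natDegree = d + 2 := by
        rw [(monic_X_sub_C _).natDegree_mul gm, natDegree_X_sub_C, gd]; omega
      have hle : ((X - C a) * g - f).natDegree ≤ d := by
        rw [natDegree_le_iff_coeff_eq_zero]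
        intro N hN
        rw [coeff_sub]
        rcases Nat.lt_or_ge (d + 2) N with h | h
        · rw [coeff_eq_zero_of_natDegree_lt (by omega), coeff_eq_zero_of_natDegree_lt (by omega)]
          simp
        rcases Nat.lt_or_ge (d + 1) N with h' | h'
        · have e : N = d + 2 := by omega
          subst e
          have c1 := m1.coeff_natDegree
          have c2 := hf.coeff_natDegree
          rw [d1] at c1
          rw [hd] at c2
          rw [c1, show d + 2 = d + 1 + 1 by omega, c2, sub_self]
        · have e : N = d + 1 := by omega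
          subst e
          have c3 := gm.coeff_natDegree
          rw [gd] at c3
          rw [sub_mul, coeff_sub, coeff_X_mul, coeff_C_mul, c3, hadef]
          ring
      omega
    set h := (X - C a) * g - f with hh
    have hev : ∀ j, j < d + 1 → h.eval (y j) = - f.eval (y j) := by
      intro j hj
      rw [hh, eval_sub, eval_mul, hg, rp_root y _ _ hj]
      ring
    -- roots of h
    have hz : ∀ i, i < d → ∃ z, y i < z ∧ z < y (i + 1) ∧ h.eval z = 0 := by
      intro i hi
      refine ivt_poly h (hy i (i + 1) (by omega) (by omega)) ?_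
      rw [hev i (by omega), hev (i + 1) (by omega)]
      have s1 := hs i (by omega)
      have s2 := hs (i + 1) (by omega)
      have s3 := mul_pos s1 s2
      rw [show d + 1 - i = (d + 1 - (i + 1)) + 1 by omega, pow_succ] at s3
      have e : ((-1 : ℝ) ^ (d + 1 - (i + 1)) * -1 * eval (y i) f) *
          ((-1) ^ (d + 1 - (i + 1)) * eval (y (i + 1)) f) =
          -(((-1 : ℝ) ^ (d + 1 - (i + 1))) ^ 2 * (eval (y i) f * eval (y (i + 1)) f)) := by ring
      rw [e, ← pow_mul, mul_comm _ 2, pow_mul] at s3
      norm_num at s3
      linarith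
    choose! z hz1 hz2 hz3 using hz
    have zmono : ∀ i j, i < j → j < d → z i < z j := by
      intro i j hij hj
      have h1 := hz2 i (by omega)
      have h2 := hz1 j hj
      rcases Nat.lt_or_ge (i + 1) j with h3 | h3
      · exact (h1.trans (hy _ _ h3 (by omega))).trans h2
      · have : i + 1 = j := by omega
        rw [this] at h1
        exact h1.trans h2
    have zlast : ∀ i, i < d → z i < y d := by
      intro i hi
      have h1 := hz2 i hi
      rcases Nat.lt_or_ge (i + 1) d with h3 | h3
      · exact h1.trans (hy _ _ h3 (by omega))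
      · have : i + 1 = d := by omega
        rw [this] at h1
        exact h1
    -- h = c * rp z d
    have hpos : 0 < h.eval (y d) := by
      have s1 := hs d (by omega)
      rw [show d + 1 - d = 1 by omega] at s1
      rw [hev d (by omega)]
      linarith
    have zpos : 0 < (rp z d).eval (y d) := by
      rw [rp_eval]
      exact prod_pos fun i hi => sub_pos.2 (zlast i (mem_range.1 hi))
    set c := h.eval (y d) / (rp z d).eval (y d) with hc
    have cpos : 0 < c := div_pos hpos zpos
    have hfac : h = C c * rp z d := by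
      have key : h - C c * rp z d = 0 := by
        refine eq_zero_of_roots (d := d + 1) (x := fun i => if i < d then z i else y d) ?_ ?_ ?_
        · have h1 : (C c * rp z d).natDegree ≤ d := by
            refine (natDegree_C_mul_le _ _).trans ?_
            rw [rp_deg]
          have h2 := natDegree_sub_le h (C c * rp z d)
          have h3 : max h.natDegree (C c * rp z d).natDegree < d + 1 := by
            rw [max_lt_iff]; exact ⟨ha, by omega⟩
          exact lt_of_le_of_lt h2 h3
        · intro i j hij hj
          rcases Nat.lt_or_ge j d with h1 | h1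
          · rw [if_pos h1, if_pos (by omega)]
            exact zmono i j hij h1
          · have h2 : i < d := by omega
            have h3 : ¬ j < d := by omega
            simp only [h2, h3, if_true, if_false]
            exact zlast i h2
        · intro i hi
          rcases Nat.lt_or_ge i d with h1 | h1
          · rw [if_pos h1, eval_sub, eval_mul, rp_root _ _ _ h1, hz3 i h1]
            ring
          · rw [if_neg (by omega), eval_sub, eval_mul, eval_C, hc,
              div_mul_cancel₀ _ zpos.ne', sub_self]
      exact sub_eq_zero.1 key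
    -- apply the induction hypothesis to (g, z)
    obtain ⟨α, γ, γpos, e1, e2⟩ := ih g z gm gd zmono (by
      intro j hj
      rw [hg, rp_eval]
      have := sign_prod y (z j) (d + 1) (j + 1) (by omega)
        (fun i hi => by
          have h1 := hz1 j hj
          rcases Nat.lt_or_ge i j with h2 | h2
          · exact (hy i j h2 (by omega)).trans h1
          · have : i = j := by omega
            rw [this]; exact h1)
        (fun i h1 h2 => by
          have h3 := hz2 j hj
          rcases Nat.lt_or_ge (j + 1) i with h4 | h4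
          · exact h3.trans (hy _ _ h4 h2)
          · have : i = j + 1 := by omega
            rw [this]; exact h3)
      rw [show d + 1 - (j + 1) = d - j by omega] at this
      exact this)
    refine ⟨fun i => if i = d + 1 then a else α i, fun i => if i = d + 1 then c else γ i,
      fun i => ?_, ?_, ?_⟩
    · simp only
      split_ifs
      · exact cpos
      · exact γpos i
    · rw [chi_succ]
      have c1 : chi (fun i => if i = d + 1 then a else α i) (fun i => if i = d + 1 then c else γ i)
          0 (d + 1) = g := by
        rw [← e1]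
        refine chi_congr 0 (d + 1) (fun j _ h2 => ?_) (fun j _ h2 => ?_) <;>
        · rw [if_neg (by omega)]
      have c2 : chi (fun i => if i = d + 1 then a else α i) (fun i => if i = d + 1 then c else γ i)
          0 d = rp z d := by
        rw [← e2]
        refine chi_congr 0 d (fun j _ h2 => ?_) (fun j _ h2 => ?_) <;>
        · rw [if_neg (by omega)]
      rw [c1, c2]
      simp only [zero_add, if_true]
      rw [← hfac, hh]
      ring
    · rw [hg, ← hg, ← e1]
      refine chi_congr 0 (d + 1) (fun j _ h2 => ?_) (fun j _ h2 => ?_) <;>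
      · rw [if_neg (by omega)]

end Pool.Agent.L5helper38.Tad
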